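import Mathlib

/-!
Definitions used in the statement: weighted square-summable functions, operators given by a
nearest-neighbour formula, forward cones of a rooted tree, and Green functions.
-/

namespace Pool.Agent.Lib.MP_ae9099_mp

open MeasureTheory Set Filter Topology

/-- The measure on `W` (with all sets measurable) giving mass `ν x` to the point `x`. -/
noncomputable def wmeas {W : Type*} (ν : W → ℝ) : @Measure W ⊤ :=
  letI : MeasurableSpace W := ⊤
  Measure.sum fun x => ENNReal.ofReal (ν x) • Measure.dirac x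

/-- The Hilbert space `ℓ²(W, ν)`. -/
abbrev l2 {W : Type*} (ν : W → ℝ) : Type _ := Lp ℂ 2 (wmeas ν)

/-- The function `W → ℂ` given by an element of `ℓ²(W, ν)`. -/
noncomputable def ev {W : Type*} (ν : W → ℝ) (φ : l2 ν) : W → ℂ := φ

/-- Bounded operators on `ℓ²(W, ν)`. -/
abbrev Op {W : Type*} (ν : W → ℝ) : Type _ := l2 ν →L[ℂ] l2 ν

/-- `A` acts by `(A φ)(x) = ∑_{y ∼ x} t(x,y) φ(y) + w(x) φ(x)`. -/
def IsJacobi {W : Type*} (H : SimpleGraph W) (ν : W → ℝ) (t : W → W → ℂ) (w : W → ℝ)
    (A : Op ν) : Prop :=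
  ∀ (φ : l2 ν) (x : W),
    ev ν (A φ) x = (∑ᶠ y ∈ H.neighborSet x, t x y * ev ν φ y) + w x * ev ν φ x

/-- `y` is a child of `x` in the tree `G` rooted at `o`. -/
def IsChild {V : Type*} (G : SimpleGraph V) (o x y : V) : Prop :=
  G.Adj x y ∧ G.dist o y = G.dist o x + 1

/-- The vertex `x` and all its descendants. -/
def cone {V : Type*} (G : SimpleGraph V) (o x : V) : Set V :=
  {y | Relation.ReflTransGen (IsChild G o) x y}

/-- The matrix element `⟨δ, (A - z)⁻¹ δ⟩` of the resolvent. -/
noncomputable def green {H : Type*} [NormedAddCommGroup H] [InnerProductSpace ℂ H]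
    (A : H →L[ℂ] H) (δ : H) (z : ℂ) : ℂ :=
  inner ℂ δ (Ring.inverse (A - z • 1) δ)

/-- `f` extends continuously from the open to the closed upper half-plane; in particular the
boundary values exist at every real point and depend continuously on it. -/
def ExtendsToAxis (f : ℂ → ℂ) : Prop :=
  ∃ F : ℂ → ℂ, ContinuousOn F {z | 0 ≤ z.im} ∧ (∀ z, 0 < z.im → F z = f z) ∧
    (∀ E : ℝ, Tendsto (fun η : ℝ => f (E + η * Complex.I)) (𝓝[>] 0) (𝓝 (F E))) ∧
    Continuous fun E : ℝ => F E

end Pool.Agent.Lib.MP_ae9099_mp
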