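import Pool.Agent.Lib.MP_ae9099_mp.Defs

/-!
Hölder continuity up to the real axis.
-/

namespace Pool.Agent.Lib.MP_ae9099_mp

open Filter Topology

/-- `f` extends from the open upper half-plane to a function on the closed upper half-plane that
is Hölder continuous of exponent `1 / 3`; in particular the boundary values exist at every real
point and depend continuously on it. -/
def HolderToAxis (f : ℂ → ℂ) : Prop :=
  ∃ (F : ℂ → ℂ) (C : ℝ), (∀ z, 0 < z.im → F z = f z) ∧
    (∀ E : ℝ, Tendsto (fun η : ℝ => f (E + η * Complex.I)) (𝓝[>] 0) (𝓝 (F E))) ∧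
    (Continuous fun E : ℝ => F E) ∧
    ∀ z z', 0 ≤ z.im → 0 ≤ z'.im → ‖F z - F z'‖ ≤ C * ‖z - z'‖ ^ (1 / 3 : ℝ)

end Pool.Agent.Lib.MP_ae9099_mp
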