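import Pool.Agent.Lib.MP_ae9099_mp.Label

/-!
The solution of a quadratic vector equation with an irreducible nonnegative matrix with positive
diagonal is bounded and Hölder continuous of exponent `1 / 3` on the upper half-plane.
-/

namespace Pool.Agent.Lib.MP_ae9099_mp

open Complex Finset

/-- Bounded and Hölder continuous of exponent `1 / 3` on the open upper half-plane. -/
def Hol (f : ℂ → ℂ) : Prop := ∃ C : ℝ, 0 ≤ C ∧ ∀ z, 0 < z.im → ‖f z‖ ≤ C ∧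
  ∀ z', 0 < z'.im → ∀ r : ℝ, 0 < r → ‖z - z'‖ ≤ r ^ 3 → ‖f z - f z'‖ ≤ C * r

lemma Hol.congr {f g : ℂ → ℂ} (h : Hol f) (e : ∀ z, 0 < z.im → f z = g z) : Hol g := by
  obtain ⟨C, h0, h1⟩ := h
  exact ⟨C, h0, fun z hz => ⟨e z hz ▸ (h1 z hz).1, fun z' hz' =>
    e z hz ▸ e z' hz' ▸ (h1 z hz).2 z' hz'⟩⟩

lemma Hol.add {f g : ℂ → ℂ} (hf : Hol f) (hg : Hol g) : Hol fun z => f z + g z := by
  obtain ⟨C, h0, h1⟩ := hf
  obtain ⟨D, h2, h3⟩ := hg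
  refine ⟨C + D, by positivity, fun z hz => ⟨norm_add_le_of_le (h1 z hz).1 (h3 z hz).1,
    fun z' hz' r hr h => ?_⟩⟩
  rw [add_sub_add_comm, add_mul]
  exact norm_add_le_of_le ((h1 z hz).2 z' hz' r hr h) ((h3 z hz).2 z' hz' r hr h)

lemma Hol.mul {f g : ℂ → ℂ} (hf : Hol f) (hg : Hol g) : Hol fun z => f z * g z := by
  obtain ⟨C, h0, h1⟩ := hf
  obtain ⟨D, h2, h3⟩ := hg
  refine ⟨2 * (C * D), by positivity, fun z hz => ⟨?_, fun z' hz' r hr h => ?_⟩⟩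
  · have := norm_mul_le_of_le (h1 z hz).1 (h3 z hz).1
    nlinarith [mul_nonneg h0 h2]
  · rw [show f z * g z - f z' * g z' = f z * (g z - g z') + (f z - f z') * g z' by ring]
    refine (norm_add_le_of_le (norm_mul_le_of_le (h1 z hz).1 ((h3 z hz).2 z' hz' r hr h))
      (norm_mul_le_of_le ((h1 z hz).2 z' hz' r hr h) (h3 z' hz').1)).trans (le_of_eq ?_)
    ring

lemma Hol.const (c : ℂ) : Hol fun _ => c :=
  ⟨‖c‖, norm_nonneg _, fun _ _ => ⟨le_rfl, fun _ _ r hr _ => by simp; positivity⟩⟩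

lemma hol_of_local {f : ℂ → ℂ} {B K : ℝ} (hK : 0 ≤ K) (hB : ∀ z, 0 < z.im → ‖f z‖ ≤ B)
    (h : ∀ (z z' : ℂ) (t : ℝ), 0 < t → t ≤ 1 → t ^ 3 ≤ z.im → t ^ 3 ≤ z'.im → ‖z - z'‖ ≤ 1 →
      ‖f z - f z'‖ * t ^ 2 ≤ K * ‖z - z'‖) : Hol f := by
  have hB0 : 0 ≤ B := (norm_nonneg _).trans (hB I (by simp))
  have h1 : ∀ (z z' : ℂ) (t s : ℝ), 0 < t → t ≤ 1 → t ^ 3 ≤ z.im → t ^ 3 ≤ z'.im →
      ‖z - z'‖ ≤ 1 → ‖z - z'‖ ≤ s * t ^ 3 → ‖f z - f z'‖ ≤ K * (s * t) :=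
    fun z z' t s a1 a2 a3 a4 a5 a6 => by
    refine le_of_mul_le_mul_right ((h z z' t a1 a2 a3 a4 a5).trans ?_) (pow_pos a1 2)
    calc K * ‖z - z'‖ ≤ K * (s * t ^ 3) := by gcongr
      _ = _ := by ring
  have h2 : ∀ (n : ℕ) (z : ℂ) (r : ℝ), 0 < z.im → 0 < r → r ≤ 1 → r ^ 3 ≤ 8 ^ n * z.im →
      ‖f (z + (r ^ 3 : ℝ) * I) - f z‖ ≤ 7 * K * r := by
    intro n
    induction n with
    | zero =>
      intro z r hz a1 a2 a3
      have a4 : ‖z + (r ^ 3 : ℝ) * I - z‖ = r ^ 3 := by simp [abs_of_pos a1]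
      have := h1 (z + (r ^ 3 : ℝ) * I) z r 1 a1 a2 (by simp only [add_im, mul_I_im, ofReal_re]; linarith)
        (by simpa using a3) (a4 ▸ pow_le_one₀ a1.le a2) (by rw [a4, one_mul])
      nlinarith [mul_nonneg hK a1.le]
    | succ n ih =>
      intro z r hz a1 a2 a3
      have a0 : 0 < r ^ 3 := by positivity
      have a4 : ‖z + (r ^ 3 : ℝ) * I - (z + ((r / 2) ^ 3 : ℝ) * I)‖ = 7 * (r / 2) ^ 3 := by
        rw [add_sub_add_left_eq_sub, ← sub_mul, ← ofReal_sub, norm_mul, norm_I, mul_one, norm_real,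
          Real.norm_eq_abs, abs_of_nonneg (by nlinarith)]
        ring
      have a5 := h1 (z + (r ^ 3 : ℝ) * I) (z + ((r / 2) ^ 3 : ℝ) * I) (r / 2) 7 (by positivity)
        (by linarith) (by simp only [add_im, mul_I_im, ofReal_re]; nlinarith)
        (by simp only [add_im, mul_I_im, ofReal_re]; linarith)
        (by rw [a4]; nlinarith [pow_le_one₀ a1.le a2 (n := 3)]) a4.le
      have a6 := ih z (r / 2) hz (by positivity) (by linarith) (by rw [pow_succ 8] at a3; linarith)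
      have := norm_sub_le_norm_sub_add_norm_sub (f (z + (r ^ 3 : ℝ) * I))
        (f (z + ((r / 2) ^ 3 : ℝ) * I)) (f z)
      linarith
  have h3 : ∀ (z : ℂ) (r : ℝ), 0 < z.im → 0 < r → r ≤ 1 →
      ‖f (z + (r ^ 3 : ℝ) * I) - f z‖ ≤ 7 * K * r := fun z r hz a1 a2 => by
    obtain ⟨n, hn⟩ := pow_unbounded_of_one_lt (r ^ 3 / z.im) (show (1 : ℝ) < 8 by norm_num)
    exact h2 n z r hz a1 a2 ((div_lt_iff₀ hz).1 hn).le
  refine ⟨2 * B + 15 * K, by positivity, fun z hz => ⟨by linarith [hB z hz],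
    fun z' hz' r hr hd => ?_⟩⟩
  have hKr := mul_nonneg hK hr.le
  rcases le_total r 1 with a | a
  · have a1 := h3 z r hz hr a
    have a2 := h3 z' r hz' hr a
    have a3 := h1 (z + (r ^ 3 : ℝ) * I) (z' + (r ^ 3 : ℝ) * I) r 1 hr a
      (by simp only [add_im, mul_I_im, ofReal_re]; linarith)
      (by simp only [add_im, mul_I_im, ofReal_re]; linarith)
      (by rw [add_sub_add_right_eq_sub]; exact hd.trans (pow_le_one₀ hr.le a))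
      (by rwa [add_sub_add_right_eq_sub, one_mul])
    have a4 := norm_sub_le_norm_sub_add_norm_sub (f z) (f (z + (r ^ 3 : ℝ) * I)) (f z')
    have a5 := norm_sub_le_norm_sub_add_norm_sub (f (z + (r ^ 3 : ℝ) * I))
      (f (z' + (r ^ 3 : ℝ) * I)) (f z')
    rw [norm_sub_rev] at a1
    nlinarith [mul_nonneg hB0 hr.le]
  · have := norm_sub_le_of_le (hB z hz) (hB z' hz')
    nlinarith

lemma gain {y y' : ℂ} {s b B ρ : ℝ} (hs : 0 ≤ s) (hb : 0 < b) (h1 : b ≤ ‖y‖) (h2 : b ≤ ‖y'‖)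
    (h3 : ‖y‖ ≤ B) (h4 : ‖y'‖ ≤ B) (ha : 0 ≤ y.im) (ha' : 0 ≤ y'.im) (hρ0 : 0 ≤ ρ)
    (hρ : ρ ≤ y.im + y'.im) (hq : ‖y‖ * ‖y'‖ * s ≤ 1) :
    1 - ‖y‖ * ‖y'‖ * s + s * (b ^ 2 * ρ ^ 2 / (2 * B ^ 2)) ≤ ‖1 - y * y' * s‖ := by
  have e1 : ‖y‖ ^ 2 = y.re ^ 2 + y.im ^ 2 := by rw [← normSq_eq_norm_sq, normSq_apply]; ring
  have e2 : ‖y'‖ ^ 2 = y'.re ^ 2 + y'.im ^ 2 := by rw [← normSq_eq_norm_sq, normSq_apply]; ring
  have e3 : ‖1 - y * y' * s‖ ^ 2 = (1 - ‖y‖ * ‖y'‖ * s) ^ 2 +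
      2 * (s * (‖y‖ * ‖y'‖ - (y.re * y'.re - y.im * y'.im))) := by
    rw [← normSq_eq_norm_sq, normSq_apply]
    simp only [sub_re, one_re, mul_re, ofReal_re, ofReal_im, sub_im, one_im, mul_im]
    linear_combination (-(s ^ 2 * ‖y'‖ ^ 2)) * e1 - s ^ 2 * (y.re ^ 2 + y.im ^ 2) * e2
  have e4 : ‖1 - y * y' * s‖ ≤ 1 + ‖y‖ * ‖y'‖ * s := by
    refine (norm_sub_le _ _).trans (le_of_eq ?_)
    rw [norm_one, norm_mul, norm_mul, norm_real, Real.norm_eq_abs, abs_of_nonneg hs]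
  have hB : 0 < B := by linarith
  have e5 : b ^ 2 * ρ ^ 2 / (2 * B ^ 2) ≤ ‖y‖ * ‖y'‖ - (y.re * y'.re - y.im * y'.im) := by
    have f1 : b * ρ ≤ y.im * ‖y'‖ + y'.im * ‖y‖ := by nlinarith
    have f2 : (b * ρ) ^ 2 ≤ (y.im * ‖y'‖ + y'.im * ‖y‖) ^ 2 := by gcongr
    have f3 : 2 * (‖y‖ * ‖y'‖) * (‖y‖ * ‖y'‖ - (y.re * y'.re - y.im * y'.im)) =
        (y.re * ‖y'‖ - y'.re * ‖y‖) ^ 2 + (y.im * ‖y'‖ + y'.im * ‖y‖) ^ 2 := by
      linear_combination ‖y'‖ ^ 2 * e1 + ‖y‖ ^ 2 * e2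
    have f4 : 0 < ‖y‖ * ‖y'‖ := mul_pos (by linarith) (by linarith)
    have f5 : 0 ≤ ‖y‖ * ‖y'‖ - (y.re * y'.re - y.im * y'.im) := by
      by_contra h
      nlinarith [sq_nonneg (y.re * ‖y'‖ - y'.re * ‖y‖), sq_nonneg (y.im * ‖y'‖ + y'.im * ‖y‖)]
    have f6 : ‖y‖ * ‖y'‖ ≤ B ^ 2 := by rw [sq]; gcongr
    rw [div_le_iff₀ (by positivity)]
    nlinarith [sq_nonneg (y.re * ‖y'‖ - y'.re * ‖y‖)]
  have e6 := mul_le_mul_of_nonneg_left e5 hs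
  have e7 : 0 ≤ s * (b ^ 2 * ρ ^ 2 / (2 * B ^ 2)) := by positivity
  generalize s * (b ^ 2 * ρ ^ 2 / (2 * B ^ 2)) = g at *
  generalize s * (‖y‖ * ‖y'‖ - (y.re * y'.re - y.im * y'.im)) = G at *
  generalize ‖y‖ * ‖y'‖ * s = p at *
  have e8 := norm_nonneg (1 - y * y' * s)
  generalize ‖1 - y * y' * s‖ = N at *
  by_contra h
  rw [not_le] at h
  have e9 : 1 - p ≤ N := by nlinarith
  nlinarith

end Pool.Agent.Lib.MP_ae9099_mp
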