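import Pool.Agent.Lib.MP_ae9099_mp.Hol

/-!
The stability estimate for the quadratic vector equation near the real axis.
-/

namespace Pool.Agent.Lib.MP_ae9099_mp

open Complex Finset

variable {A : Type*} [Fintype A] {S : A → A → ℝ} {w : A → ℝ}

lemma diff_eq {z z' : ℂ} {y y' : A → ℂ} {j : A} (h : y j * (w j - z - ∑ k, S j k * y k) = 1)
    (h' : y' j * (w j - z' - ∑ k, S j k * y' k) = 1) :
    y j - y' j = y j * y' j * (z - z' + ∑ k, S j k * (y k - y' k)) := by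
  have h3 : ∑ k, (S j k : ℂ) * (y k - y' k) = ∑ k, S j k * y k - ∑ k, S j k * y' k := by
    rw [← sum_sub_distrib]; exact sum_congr rfl fun k _ => by ring
  rw [h3]
  linear_combination (y' j) * h - (y j) * h'

lemma im_eq {z : ℂ} {y : A → ℂ} {j : A} (h : y j * (w j - z - ∑ k, S j k * y k) = 1) :
    (y j).im = ‖y j‖ ^ 2 * (z.im + ∑ k, S j k * (y k).im) := by
  simpa only [im_sum, mul_im, ofReal_re, ofReal_im, zero_mul, add_zero] using im_of_rec h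

lemma local_bound [Nonempty A] (hS : ∀ j k, 0 ≤ S j k) {z z' : ℂ} {y y' : A → ℂ}
    {b B s c t : ℝ} (hb : 0 < b) (hs : 0 < s) (hc : 0 < c) (ht : 0 < t) (hd : ∀ j, s ≤ S j j)
    (hz : t ^ 3 ≤ z.im) (hz' : t ^ 3 ≤ z'.im) (hy : ∀ j, 0 < (y j).im) (hy' : ∀ j, 0 < (y' j).im)
    (he : ∀ j, y j * (w j - z - ∑ k, S j k * y k) = 1)
    (he' : ∀ j, y' j * (w j - z' - ∑ k, S j k * y' k) = 1)
    (h1 : ∀ j, b ≤ ‖y j‖ ∧ ‖y j‖ ≤ B) (h1' : ∀ j, b ≤ ‖y' j‖ ∧ ‖y' j‖ ≤ B)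
    (h2 : ∀ j k, c * (y k).im ≤ (y j).im) (h2' : ∀ j k, c * (y' k).im ≤ (y' j).im) (i : A) :
    ‖y i - y' i‖ * t ^ 2 * (c * min (s * (b ^ 2 / (2 * B ^ 2))) (2 * b ^ 2))
      ≤ B ^ 2 * ‖z - z'‖ := by
  classical
  set a : A → ℝ := fun k => √(y k).im with ha
  set a' : A → ℝ := fun k => √(y' k).im with ha'
  have ha0 : ∀ k, 0 < a k := fun k => Real.sqrt_pos.2 (hy k)
  have hb0 : ∀ k, 0 < a' k := fun k => Real.sqrt_pos.2 (hy' k)
  have ha2 : ∀ k, a k ^ 2 = (y k).im := fun k => Real.sq_sqrt (hy k).le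
  have hb2 : ∀ k, a' k ^ 2 = (y' k).im := fun k => Real.sq_sqrt (hy' k).le
  obtain ⟨j, -, hj⟩ := exists_max_image univ (fun k => ‖y k - y' k‖ / (a k * a' k)) univ_nonempty
  set lam := ‖y j - y' j‖ / (a j * a' j) with hlam
  have hab : ∀ k, 0 < a k * a' k := fun k => mul_pos (ha0 k) (hb0 k)
  have hlam0 : 0 ≤ lam := div_nonneg (norm_nonneg _) (hab j).le
  have hk : ∀ k, ‖y k - y' k‖ ≤ lam * (a k * a' k) := fun k =>
    (div_le_iff₀ (hab k)).1 (hj k (mem_univ k))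
  have hjj : ‖y j - y' j‖ = lam * (a j * a' j) := by
    rw [hlam, div_mul_cancel₀ _ (hab j).ne']
  have hB : 0 < B := hb.trans_le ((h1 j).1.trans (h1 j).2)
  have e1 := diff_eq (he j) (he' j)
  have e2 : (1 - y j * y' j * S j j) * (y j - y' j)
      = y j * y' j * (z - z') + y j * y' j * ∑ k ∈ univ.erase j, S j k * (y k - y' k) := by
    rw [← add_sum_erase _ _ (mem_univ j)] at e1
    linear_combination e1
  set Q := ‖y j‖ * ‖y' j‖ * ∑ k ∈ univ.erase j, S j k * (a k * a' k) with hQ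
  have hQ0 : 0 ≤ Q := mul_nonneg (by positivity)
    (sum_nonneg fun k _ => mul_nonneg (hS j k) (hab k).le)
  have e3 : ‖1 - y j * y' j * S j j‖ * (lam * (a j * a' j)) ≤ B ^ 2 * ‖z - z'‖ + lam * Q := by
    rw [← hjj, ← norm_mul, e2]
    refine norm_add_le_of_le ?_ ?_
    · rw [norm_mul, norm_mul, sq]
      gcongr
      exacts [(h1 j).2, (h1' j).2]
    · rw [norm_mul, norm_mul, hQ, mul_left_comm, mul_sum _ _ lam]
      apply mul_le_mul_of_nonneg_left _ (by positivity)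
      refine (norm_sum_le _ _).trans (sum_le_sum fun k _ => ?_)
      rw [norm_mul, norm_real, Real.norm_of_nonneg (hS j k), mul_left_comm]
      exact mul_le_mul_of_nonneg_left (hk k) (hS j k)
  have e5 : 2 * (‖y j‖ * ‖y' j‖ * ∑ k, S j k * (a k * a' k)) * (a j * a' j)
      ≤ a' j ^ 2 * (‖y j‖ ^ 2 * ∑ k, S j k * (y k).im)
        + a j ^ 2 * (‖y' j‖ ^ 2 * ∑ k, S j k * (y' k).im) := by
    simp only [mul_sum, sum_mul, ← sum_add_distrib]
    refine sum_le_sum fun k _ => ?_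
    have := mul_le_mul_of_nonneg_left (amgm ‖y j‖ ‖y' j‖ (a k) (a' k) (a j) (a' j)) (hS j k)
    rw [← ha2 k, ← hb2 k]
    nlinarith
  have e6 : ‖y j‖ ^ 2 * ∑ k, S j k * (y k).im ≤ a j ^ 2 - b ^ 2 * t ^ 3 := by
    have : b ^ 2 * t ^ 3 ≤ ‖y j‖ ^ 2 * z.im := by gcongr; exact (h1 j).1
    rw [ha2, im_eq (he j)]
    linarith
  have e7 : ‖y' j‖ ^ 2 * ∑ k, S j k * (y' k).im ≤ a' j ^ 2 - b ^ 2 * t ^ 3 := by
    have : b ^ 2 * t ^ 3 ≤ ‖y' j‖ ^ 2 * z'.im := by gcongr; exact (h1' j).1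
    rw [hb2, im_eq (he' j)]
    linarith
  rw [← add_sum_erase _ _ (mem_univ j), mul_add, ← hQ] at e5
  set ρ := a j ^ 2 + a' j ^ 2 with hρ
  set v := a j * a' j with hv
  have hv0 : 0 < v := hab j
  have hρ0 : 0 < ρ := by have := ha0 j; positivity
  have e8 : 2 * (‖y j‖ * ‖y' j‖ * S j j * v + Q) * v ≤ 2 * v ^ 2 - b ^ 2 * t ^ 3 * ρ := by
    have f5 := mul_le_mul_of_nonneg_left e6 (sq_nonneg (a' j))
    have f6 := mul_le_mul_of_nonneg_left e7 (sq_nonneg (a j))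
    rw [hρ, hv, mul_pow]
    linarith
  have e9 : ‖y j‖ * ‖y' j‖ * S j j * v + Q ≤ v * (1 - 2 * b ^ 2 * (t ^ 3 / ρ)) := by
    have f1 : 2 * v ≤ ρ := by rw [hρ, hv]; nlinarith [sq_nonneg (a j - a' j)]
    have f2 : (2 * v) ^ 2 * (t ^ 3 / ρ) ≤ ρ ^ 2 * (t ^ 3 / ρ) := by gcongr
    have f3 : ρ ^ 2 * (t ^ 3 / ρ) = t ^ 3 * ρ := by field_simp
    have f4 := mul_le_mul_of_nonneg_left (f2.trans f3.le) (sq_nonneg b)
    refine le_of_mul_le_mul_right ?_ (show 0 < 2 * v by positivity)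
    linarith
  have hτ : 0 ≤ 2 * b ^ 2 * (t ^ 3 / ρ) := by positivity
  have hq : ‖y j‖ * ‖y' j‖ * S j j ≤ 1 := by
    refine le_of_mul_le_mul_right ?_ hv0
    nlinarith [mul_nonneg hv0.le hτ]
  have e10 := gain (hS j j) hb (h1 j).1 (h1' j).1 (h1 j).2 (h1' j).2 (hy j).le (hy' j).le hρ0.le
    (by rw [hρ, ha2, hb2]) hq
  set μ := min (s * (b ^ 2 / (2 * B ^ 2))) (2 * b ^ 2) with hμ
  have hμ0 : 0 ≤ μ := by positivity
  have e11 : μ * t ^ 2 ≤ S j j * (b ^ 2 * ρ ^ 2 / (2 * B ^ 2)) + 2 * b ^ 2 * (t ^ 3 / ρ) := by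
    rcases le_total t ρ with h | h
    · have : μ * t ^ 2 ≤ S j j * (b ^ 2 / (2 * B ^ 2)) * ρ ^ 2 := by
        have := hS j j
        gcongr
        exact (min_le_left _ _).trans (by gcongr; exact hd j)
      calc _ ≤ _ := this
        _ = S j j * (b ^ 2 * ρ ^ 2 / (2 * B ^ 2)) := by ring
        _ ≤ _ := le_add_of_nonneg_right hτ
    · have : μ * t ^ 2 ≤ 2 * b ^ 2 * (t ^ 3 / ρ) := by
        gcongr
        · exact min_le_right _ _
        · rw [le_div_iff₀ hρ0, pow_succ t 2]; gcongr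
      exact this.trans (le_add_of_nonneg_left (by have := hS j j; positivity))
  have e12 : c * (a i * a' i) ≤ v := by
    refine le_of_sq_le_sq ?_ hv0.le
    have := mul_le_mul (h2 j i) (h2' j i) (mul_pos hc (hy' i)).le (hy j).le
    rw [← ha2, ← ha2, ← hb2, ← hb2] at this
    rw [hv]
    linarith
  have e13 := mul_le_mul_of_nonneg_right e10 (mul_nonneg hlam0 hv0.le)
  have e14 := mul_le_mul_of_nonneg_left e9 hlam0
  have e15 := mul_le_mul_of_nonneg_right e11 (mul_nonneg hlam0 hv0.le)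
  have e16 : ‖y i - y' i‖ * c ≤ lam * v :=
    (mul_le_mul_of_nonneg_right (hk i) hc.le).trans
      ((le_of_eq (by ring)).trans (mul_le_mul_of_nonneg_left e12 hlam0))
  have e17 := mul_le_mul_of_nonneg_left e16 (mul_nonneg hμ0 (sq_nonneg t))
  linarith

lemma far_bound [Nonempty A] (hS : ∀ j k, 0 ≤ S j k) {z z' : ℂ} {y y' : A → ℂ} {σ : ℝ}
    (hσ : ∀ j, ∑ k, S j k ≤ σ) (he : ∀ j, y j * (w j - z - ∑ k, S j k * y k) = 1)
    (he' : ∀ j, y' j * (w j - z' - ∑ k, S j k * y' k) = 1)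
    (h1 : ∀ j, ‖y j‖ * (σ + 1) ≤ 1) (h1' : ∀ j, ‖y' j‖ * (σ + 1) ≤ 1) (i : A) :
    ‖y i - y' i‖ ≤ ‖z - z'‖ := by
  obtain ⟨j, -, hj⟩ := exists_max_image univ (fun k => ‖y k - y' k‖) univ_nonempty
  have hσ0 : 0 ≤ σ := (sum_nonneg fun k _ => hS j k).trans (hσ j)
  refine (hj i (mem_univ i)).trans ?_
  have e1 : ‖∑ k, S j k * (y k - y' k)‖ ≤ σ * ‖y j - y' j‖ := by
    refine (norm_sum_le _ _).trans ((sum_le_sum (g := fun k => S j k * ‖y j - y' j‖)
      fun k _ => ?_).trans ?_)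
    · rw [norm_mul, norm_real, Real.norm_of_nonneg (hS j k)]
      exact mul_le_mul_of_nonneg_left (hj k (mem_univ k)) (hS j k)
    · rw [← sum_mul]
      exact mul_le_mul_of_nonneg_right (hσ j) (norm_nonneg _)
  have e2 : ‖y j - y' j‖ ≤ ‖y j‖ * ‖y' j‖ * (‖z - z'‖ + σ * ‖y j - y' j‖) := by
    refine (congrArg norm (diff_eq (he j) (he' j))).le.trans ?_
    rw [norm_mul, norm_mul]
    exact mul_le_mul_of_nonneg_left (norm_add_le_of_le le_rfl e1) (by positivity)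
  have e3 := mul_le_mul (h1 j) (h1' j) (by positivity) zero_le_one
  have e4 := mul_le_mul_of_nonneg_right e3
    (show 0 ≤ ‖z - z'‖ + σ * ‖y j - y' j‖ by positivity)
  have e5 := mul_le_mul_of_nonneg_right e2 (sq_nonneg (σ + 1))
  nlinarith [mul_nonneg hσ0 (norm_nonneg (y j - y' j)),
    mul_nonneg (sq_nonneg σ) (norm_nonneg (y j - y' j))]

theorem qve_holder [Nonempty A] (hS : ∀ j k, 0 ≤ S j k) (hd : ∀ j, 0 < S j j)
    (hirr : ∀ P : A → Prop, (∀ j k, P j → 0 < S j k → P k) → ∀ j k, P j → P k)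
    (y : ℂ → A → ℂ) (hy : ∀ z, 0 < z.im → ∀ j, 0 < (y z j).im)
    (he : ∀ z, 0 < z.im → ∀ j, y z j * (w j - z - ∑ k, S j k * y z k) = 1) (i : A) :
    Hol fun z => y z i := by
  obtain ⟨B, hB⟩ := Finite.exists_le fun j => 1 + (S j j)⁻¹
  obtain ⟨σ, hσ⟩ := Finite.exists_le fun j => ∑ k, S j k
  obtain ⟨W, hW⟩ := Finite.exists_le fun j => |w j|
  obtain ⟨j0, -, hj0⟩ := exists_min_image univ (fun j => S j j) univ_nonempty
  have hσ0 : 0 ≤ σ := (sum_nonneg fun k _ => hS i k).trans (hσ i)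
  have hW0 : 0 ≤ W := (abs_nonneg _).trans (hW i)
  have hB0 : 0 < B := lt_of_lt_of_le (by have := hd i; positivity) (hB i)
  have hup : ∀ z, 0 < z.im → ∀ j, ‖y z j‖ ≤ B := fun z hz j => by
    obtain ⟨u, hu⟩ := good_of_pos hz (hy z hz) (he z hz)
    exact (hu.bound hS hd hirr j).trans (hB j)
  have hP : ∀ z, 0 < z.im → ∀ j, ‖w j - ∑ k, S j k * y z k‖ ≤ W + σ * B := fun z hz j => by
    refine norm_sub_le_of_le (by simpa using hW j) ((norm_sum_le _ _).trans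
      ((sum_le_sum (g := fun k => S j k * B) fun k _ => ?_).trans ?_))
    · rw [norm_mul, norm_real, Real.norm_of_nonneg (hS j k)]
      exact mul_le_mul_of_nonneg_left (hup z hz k) (hS j k)
    · rw [← sum_mul]
      exact mul_le_mul_of_nonneg_right (hσ j) hB0.le
  have hn : ∀ z, 0 < z.im → ∀ j, ‖y z j‖ * ‖w j - ∑ k, S j k * y z k - z‖ = 1 := fun z hz j => by
    rw [← norm_mul, sub_right_comm, he z hz j, norm_one]
  set R := W + σ * B + (σ + 1) with hR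
  have hR0 : 0 < R := by positivity
  set b := (W + σ * B + (R + 2))⁻¹ with hb
  have hb0 : 0 < b := by positivity
  have hlow : ∀ z, 0 < z.im → ‖z‖ ≤ R + 2 → ∀ j, b ≤ ‖y z j‖ := fun z hz h j => by
    rw [hb, inv_le_iff_one_le_mul₀ (by positivity), ← hn z hz j]
    exact mul_le_mul_of_nonneg_left (norm_sub_le_of_le (hP z hz j) h) (norm_nonneg _)
  have hfar : ∀ z, 0 < z.im → R ≤ ‖z‖ → ∀ j, ‖y z j‖ * (σ + 1) ≤ 1 := fun z hz h j => by
    refine le_trans ?_ (hn z hz j).le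
    rw [norm_sub_rev]
    refine mul_le_mul_of_nonneg_left (le_trans ?_ (norm_sub_norm_le _ _)) (norm_nonneg _)
    linarith [hP z hz j]
  have hcmp : ∀ j k, ∃ c : ℝ, 0 < c ∧ ∀ z, 0 < z.im → ‖z‖ ≤ R + 2 →
      c * (y z k).im ≤ (y z j).im := fun j k => by
    refine hirr (fun k => ∃ c : ℝ, 0 < c ∧ ∀ z, 0 < z.im → ‖z‖ ≤ R + 2 →
      c * (y z k).im ≤ (y z j).im) ?_ j k ⟨1, one_pos, fun z _ _ => (one_mul _).le⟩
    rintro l k ⟨c, hc, h⟩ hlk
    refine ⟨c * (b ^ 2 * S l k), by positivity, fun z hz hz' => le_trans ?_ (h z hz hz')⟩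
    rw [mul_assoc, mul_assoc, im_eq (he z hz l)]
    have f1 : S l k * (y z k).im ≤ ∑ k, S l k * (y z k).im :=
      single_le_sum (f := fun k => S l k * (y z k).im)
        (fun k _ => mul_nonneg (hS l k) (hy z hz k).le) (mem_univ k)
    have f2 := mul_pos hlk (hy z hz k)
    gcongr
    · exact hlow z hz hz' l
    · linarith
  choose c hc0 hc using hcmp
  obtain ⟨p, -, hp⟩ := exists_min_image univ (fun p : A × A => c p.1 p.2) univ_nonempty
  have hc' : ∀ z, 0 < z.im → ‖z‖ ≤ R + 2 → ∀ j k, c p.1 p.2 * (y z k).im ≤ (y z j).im :=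
    fun z hz h j k => (mul_le_mul_of_nonneg_right (hp (j, k) (mem_univ _)) (hy z hz k).le).trans
      (hc j k z hz h)
  set κ := c p.1 p.2 * min (S j0 j0 * (b ^ 2 / (2 * B ^ 2))) (2 * b ^ 2) with hκ
  have hκ0 : 0 < κ := by have := hc0 p.1 p.2; have := hd j0; positivity
  refine hol_of_local (K := 1 + B ^ 2 / κ) (by positivity) (fun z hz => hup z hz i)
    fun z z' t h1 h2 h3 h4 h5 => ?_
  have hz : 0 < z.im := (pow_pos h1 3).trans_le h3
  have hz' : 0 < z'.im := (pow_pos h1 3).trans_le h4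
  have h6 := norm_sub_norm_le z z'
  have h7 := norm_sub_norm_le z' z
  rw [norm_sub_rev] at h7
  have h8 : 0 ≤ B ^ 2 / κ * ‖z - z'‖ := by positivity
  rcases le_total ‖z‖ (R + 1) with h | h
  · have a1 : ‖z‖ ≤ R + 2 := by linarith
    have a2 : ‖z'‖ ≤ R + 2 := by linarith
    have := local_bound hS hb0 (hd j0) (hc0 p.1 p.2) h1 (fun j => hj0 j (mem_univ j)) h3 h4
      (hy z hz) (hy z' hz') (he z hz) (he z' hz') (fun j => ⟨hlow z hz a1 j, hup z hz j⟩)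
      (fun j => ⟨hlow z' hz' a2 j, hup z' hz' j⟩) (hc' z hz a1) (hc' z' hz' a2) i
    rw [← hκ, ← le_div_iff₀ hκ0, mul_div_right_comm] at this
    linarith [norm_nonneg (z - z')]
  · have := far_bound hS hσ (he z hz) (he z' hz') (hfar z hz (by linarith))
      (hfar z' hz' (by linarith)) i
    have a1 : ‖y z i - y z' i‖ * t ^ 2 ≤ ‖z - z'‖ * 1 := by
      gcongr
      exact pow_le_one₀ h1.le h2
    linarith

end Pool.Agent.Lib.MP_ae9099_mp
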