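import Pool.Agent.Lib.MP_ae9099_mp.Defs

/-!
Elementary description of the weighted space of square-summable functions.
-/

namespace Pool.Agent.Lib.MP_ae9099_mp

open MeasureTheory Set Filter Topology ComplexConjugate

variable {W : Type*} {ν : W → ℝ}

/-- Weighted square summability. -/
def Sq (ν : W → ℝ) (f : W → ℂ) : Prop := Summable fun y => ν y * ‖f y‖ ^ 2

lemma all_of_ae (hν : ∀ x, 0 < ν x) {p : W → Prop} (h : ∀ᵐ x ∂(wmeas ν), p x) (x : W) : p x := by
  letI : MeasurableSpace W := ⊤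
  have h1 := (Measure.ae_sum_iff' (p := p) trivial).1 h x
  rw [Measure.ae_ennreal_smul_measure_iff (by simpa using hν x)] at h1
  exact (ae_dirac_iff (p := p) trivial).1 h1

lemma integrable_iff (hν : ∀ x, 0 < ν x) {E : Type*} [NormedAddCommGroup E]
    [SecondCountableTopology E] (f : W → E) :
    Integrable f (wmeas ν) ↔ Summable fun x => ν x * ‖f x‖ := by
  letI : MeasurableSpace W := ⊤
  haveI : MeasurableSingletonClass W := ⟨fun _ => trivial⟩
  constructor
  · intro h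
    have := Integrable.summable_of_dirac h
    simpa [ENNReal.toReal_ofReal (hν _).le] using this
  · intro h
    borelize E
    refine ⟨(measurable_from_top.stronglyMeasurable).aestronglyMeasurable, ?_⟩
    rw [HasFiniteIntegral, wmeas, lintegral_sum_measure]
    convert! h.tsum_ofReal_lt_top with i
    rw [lintegral_smul_measure, lintegral_dirac, ENNReal.ofReal_mul (hν i).le, ofReal_norm]
    rfl

lemma memLp_iff (hν : ∀ x, 0 < ν x) (f : W → ℂ) : MemLp f 2 (wmeas ν) ↔ Sq ν f := by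
  letI : MeasurableSpace W := ⊤
  rw [memLp_two_iff_integrable_sq_norm
    (measurable_from_top.stronglyMeasurable).aestronglyMeasurable, integrable_iff hν]
  simp [Sq]

lemma sq_coe (hν : ∀ x, 0 < ν x) (φ : l2 ν) : Sq ν φ := (memLp_iff hν _).1 (Lp.memLp φ)

lemma hasSum_inner (hν : ∀ x, 0 < ν x) (φ ψ : l2 ν) :
    HasSum (fun x => (ν x : ℂ) * (conj (φ x) * ψ x)) (inner ℂ φ ψ) := by
  letI : MeasurableSpace W := ⊤
  haveI : MeasurableSingletonClass W := ⟨fun _ => trivial⟩
  have h := hasSum_integral_measure (L2.integrable_inner (𝕜 := ℂ) φ ψ)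
  rw [L2.inner_def]
  convert! h using 2 with x
  rw [integral_smul_measure, integral_dirac, ENNReal.toReal_ofReal (hν x).le]
  simp [mul_comm]

/-- The element of the Hilbert space given by a square-summable function. -/
noncomputable def mk (hν : ∀ x, 0 < ν x) (f : W → ℂ) (hf : Sq ν f) : l2 ν :=
  ((memLp_iff hν f).2 hf).toLp f

lemma mk_coe (hν : ∀ x, 0 < ν x) (f : W → ℂ) (hf : Sq ν f) : ⇑(mk hν f hf) = f :=
  funext (all_of_ae hν (MemLp.coeFn_toLp _))

lemma l2_add (hν : ∀ x, 0 < ν x) (φ ψ : l2 ν) (x : W) : (φ + ψ) x = φ x + ψ x :=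
  all_of_ae hν (Lp.coeFn_add φ ψ) x

lemma l2_sub (hν : ∀ x, 0 < ν x) (φ ψ : l2 ν) (x : W) : (φ - ψ) x = φ x - ψ x :=
  all_of_ae hν (Lp.coeFn_sub φ ψ) x

lemma l2_smul (hν : ∀ x, 0 < ν x) (c : ℂ) (φ : l2 ν) (x : W) : (c • φ) x = c * φ x :=
  all_of_ae hν (Lp.coeFn_smul c φ) x

lemma l2_ext {φ ψ : l2 ν} (h : ∀ x, φ x = ψ x) : φ = ψ := Lp.ext (Eventually.of_forall h)

lemma hasSum_norm_sq (hν : ∀ x, 0 < ν x) (φ : l2 ν) :
    HasSum (fun x => ν x * ‖φ x‖ ^ 2) (‖φ‖ ^ 2) := by
  have h := hasSum_inner hν φ φ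
  rw [inner_self_eq_norm_sq_to_K] at h
  have h2 := Complex.hasSum_re h
  convert! h2 using 2 with x
  · rw [Complex.conj_mul', ← Complex.ofReal_pow, ← Complex.ofReal_mul, Complex.ofReal_re]
  · simp [pow_two]

lemma Sq.add (hν : ∀ x, 0 < ν x) {f g : W → ℂ} (hf : Sq ν f) (hg : Sq ν g) : Sq ν (f + g) :=
  (memLp_iff hν _).1 (((memLp_iff hν _).2 hf).add ((memLp_iff hν _).2 hg))

lemma Sq.smul (hν : ∀ x, 0 < ν x) {f : W → ℂ} (c : ℂ) (hf : Sq ν f) : Sq ν (c • f) :=
  (memLp_iff hν _).1 (((memLp_iff hν _).2 hf).const_smul c)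

lemma Sq.indicator (hν : ∀ x, 0 < ν x) {f : W → ℂ} (S : Set W) (hf : Sq ν f) :
    Sq ν (S.indicator f) :=
  (memLp_iff hν _).1 (((memLp_iff hν _).2 hf).indicator (by trivial))

lemma sq_single [DecidableEq W] (x : W) : Sq ν (Pi.single x 1) := by
  apply summable_of_ne_finset_zero (s := {x})
  intro y hy
  simp [Pi.single_eq_of_ne (Finset.notMem_singleton.1 hy)]

lemma resolvent_eq {A : l2 ν →L[ℂ] l2 ν} (hA : IsSelfAdjoint A) {z : ℂ} (hz : 0 < z.im)
    (δ : l2 ν) : A (Ring.inverse (A - z • 1) δ) - z • Ring.inverse (A - z • 1) δ = δ := by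
  have h1 : z ∉ spectrum ℂ A := fun h => by
    have := congrArg Complex.im (hA.mem_spectrum_eq_re h)
    simp only [Complex.ofReal_im] at this
    linarith
  rw [spectrum.notMem_iff, Algebra.algebraMap_eq_smul_one] at h1
  have h2 : IsUnit (A - z • 1) := by simpa using h1.neg
  have := congrArg (fun B : l2 ν →L[ℂ] l2 ν => B δ) (Ring.mul_inverse_cancel _ h2)
  simpa using this

section ext
variable {V : Type*} {ι : W → V} (hι : Function.Injective ι) {μ : V → ℝ}
include hι

lemma sq_extend {f : W → ℂ} (hf : Sq (μ ∘ ι) f) : Sq μ (Function.extend ι f 0) := by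
  unfold Sq
  rw [← hι.summable_iff]
  · refine hf.congr fun x => ?_
    simp [hι.extend_apply]
  · intro y hy
    rw [Function.extend_apply' _ _ _ (by simpa using hy)]
    simp

lemma sq_comp {f : V → ℂ} (hf : Sq μ f) : Sq (μ ∘ ι) (f ∘ ι) := hf.comp_injective hι

/-- Extension by zero. -/
noncomputable def extL (hμ : ∀ x, 0 < μ x) : l2 (μ ∘ ι) →L[ℂ] l2 μ :=
  LinearMap.mkContinuous
    { toFun := fun φ => mk hμ (Function.extend ι φ 0) (sq_extend hι (sq_coe (fun _ => hμ _) φ))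
      map_add' := fun φ ψ => l2_ext fun x => by
        rw [l2_add hμ, mk_coe, mk_coe, mk_coe]
        by_cases h : ∃ y, ι y = x
        · obtain ⟨y, rfl⟩ := h
          simp only [hι.extend_apply]
          exact l2_add (ν := μ ∘ ι) (fun _ => hμ _) φ ψ y
        · simp [Function.extend_apply' _ _ _ h]
      map_smul' := fun c φ => l2_ext fun x => by
        rw [RingHom.id_apply, l2_smul hμ, mk_coe, mk_coe]
        by_cases h : ∃ y, ι y = x
        · obtain ⟨y, rfl⟩ := h
          simp only [hι.extend_apply]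
          exact l2_smul (ν := μ ∘ ι) (fun _ => hμ _) c φ y
        · simp [Function.extend_apply' _ _ _ h] } 1 (fun φ => by
      rw [one_mul]
      apply le_of_sq_le_sq _ (norm_nonneg _)
      apply le_of_eq
      refine (hasSum_norm_sq hμ _).unique ?_
      simp only [LinearMap.coe_mk, AddHom.coe_mk, mk_coe]
      rw [← hι.hasSum_iff]
      · convert! hasSum_norm_sq (ν := μ ∘ ι) (fun _ => hμ _) φ using 2 with x
        simp [hι.extend_apply]
      · intro y hy
        rw [Function.extend_apply' _ _ _ (by simpa using hy)]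
        simp)

lemma extL_coe (hμ : ∀ x, 0 < μ x) (φ : l2 (μ ∘ ι)) :
    ⇑(extL hι hμ φ) = Function.extend ι φ 0 :=
  mk_coe hμ _ (sq_extend hι (sq_coe (fun _ => hμ _) φ))

/-- Restriction. -/
noncomputable def resL (hμ : ∀ x, 0 < μ x) : l2 μ →L[ℂ] l2 (μ ∘ ι) :=
  LinearMap.mkContinuous
    { toFun := fun φ => mk (ν := μ ∘ ι) (fun _ => hμ _) (φ ∘ ι) (sq_comp hι (sq_coe hμ φ))
      map_add' := fun φ ψ => l2_ext fun x => by
        rw [l2_add (ν := μ ∘ ι) (fun _ => hμ _), mk_coe, mk_coe, mk_coe]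
        exact l2_add hμ φ ψ _
      map_smul' := fun c φ => l2_ext fun x => by
        rw [RingHom.id_apply, l2_smul (ν := μ ∘ ι) (fun _ => hμ _), mk_coe, mk_coe]
        exact l2_smul hμ c φ _ } 1 (fun φ => by
      rw [one_mul]
      apply le_of_sq_le_sq _ (norm_nonneg _)
      refine hasSum_le_inj ι hι (fun y _ => mul_nonneg (hμ y).le (sq_nonneg _)) (fun x => ?_)
        (hasSum_norm_sq (ν := μ ∘ ι) (fun _ => hμ _) _) (hasSum_norm_sq hμ φ)
      simp only [LinearMap.coe_mk, AddHom.coe_mk, mk_coe]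
      exact le_rfl)

lemma resL_coe (hμ : ∀ x, 0 < μ x) (φ : l2 μ) : ⇑(resL hι hμ φ) = φ ∘ ι :=
  mk_coe (ν := μ ∘ ι) (fun _ => hμ _) _ (sq_comp hι (sq_coe hμ φ))

end ext

end Pool.Agent.Lib.MP_ae9099_mp
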