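import Pool.Agent.Lib.MP_ae9099_mp.QVE

/-!
Label invariance of solutions of the recursion in the upper half-plane.
-/

namespace Pool.Agent.Lib.MP_ae9099_mp

open Set Complex Filter Topology

lemma im_of_rec {g z P : ℂ} {w : ℝ} (h : g * (w - z - P) = 1) :
    g.im = ‖g‖ ^ 2 * (z.im + P.im) := by
  have h1 : (‖g‖ ^ 2 : ℝ) * (w - z - P) = (starRingEnd ℂ) g := by
    rw [Complex.sq_norm, normSq_eq_conj_mul_self, mul_assoc, h, mul_one]
  have h2 := congrArg Complex.im h1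
  simp only [mul_im, ofReal_re, ofReal_im, zero_mul, add_zero, sub_im, conj_im, zero_sub] at h2
  linarith

theorem label_invariant {V A : Type*} (a : V → A) (ch : V → Finset V) (σ : A → A → ℝ)
    (m : A → ℝ) (B : ℝ) (hσ : ∀ x, ∀ c ∈ ch x, 0 ≤ σ (a x) (a c))
    (hB : ∀ x, ∑ c ∈ ch x, σ (a x) (a c) ≤ B)
    (hbij : ∀ x x', a x = a x' → ∃ e : V → V, BijOn e (ch x) (ch x') ∧ ∀ c ∈ ch x, a (e c) = a c)
    {z : ℂ} (hz : 0 < z.im) (g : V → ℂ) (h1 : ∀ x, 0 < (g x).im)
    (h2 : ∀ x, z.im * ‖g x‖ ^ 2 ≤ (g x).im)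
    (h3 : ∀ x, g x * (m (a x) - z - ∑ c ∈ ch x, σ (a x) (a c) * g c) = 1) :
    ∀ x x', a x = a x' → g x = g x' := by
  intro x0 x0' hx0
  have hB0 : 0 ≤ B := (Finset.sum_nonneg (hσ x0)).trans (hB x0)
  set η := z.im with hη
  have hn : ∀ x, ‖g x‖ ≤ η⁻¹ := by
    intro x
    have a1 := (h2 x).trans (im_le_norm _)
    have a2 : 0 < ‖g x‖ := (h1 x).trans_le (im_le_norm _)
    rw [← one_div, le_div_iff₀ hz]
    nlinarith
  set α : V → ℝ := fun x => √(g x).im with hα
  have hα0 : ∀ x, 0 < α x := fun x => Real.sqrt_pos.2 (h1 x)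
  have hα2 : ∀ x, α x ^ 2 = (g x).im := fun x => Real.sq_sqrt (h1 x).le
  set θ := B / (η ^ 2 + B) with hθ
  have hθ0 : 0 ≤ θ := by positivity
  have hθ1 : θ < 1 := (div_lt_one (by positivity)).2 (by nlinarith)
  have hgap : ∀ x, ‖g x‖ ^ 2 * ∑ c ∈ ch x, σ (a x) (a c) * α c ^ 2 ≤ θ * α x ^ 2 := by
    intro x
    have a1 := im_of_rec (h3 x)
    simp only [im_sum, mul_im, ofReal_re, ofReal_im, zero_mul, add_zero, ← hα2] at a1
    set P := ∑ c ∈ ch x, σ (a x) (a c) * α c ^ 2 with hP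
    have a2 : P ≤ B * η⁻¹ := by
      refine le_trans (Finset.sum_le_sum (g := fun c => σ (a x) (a c) * η⁻¹) fun c hc => ?_) ?_
      · exact mul_le_mul_of_nonneg_left ((hα2 c).le.trans ((im_le_norm _).trans (hn c))) (hσ x c hc)
      · rw [← Finset.sum_mul]
        exact mul_le_mul_of_nonneg_right (hB x) (by positivity)
    have a3 : P * η ≤ B := by
      rwa [← div_eq_mul_inv, le_div_iff₀ hz] at a2
    have a4 : P ≤ θ * (η + P) := by
      rw [hθ, div_mul_eq_mul_div, le_div_iff₀ (by positivity)]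
      nlinarith
    rw [a1]
    nlinarith [mul_le_mul_of_nonneg_left a4 (sq_nonneg ‖g x‖)]
  have hdiff : ∀ x x', a x = a x' → ∃ e : V → V, (∀ c ∈ ch x, a (e c) = a c) ∧
      (∑ c ∈ ch x, σ (a x) (a c) * α (e c) ^ 2 = ∑ c ∈ ch x', σ (a x') (a c) * α c ^ 2) ∧
      ‖g x - g x'‖ ≤ ‖g x‖ * ‖g x'‖ * ∑ c ∈ ch x, σ (a x) (a c) * ‖g c - g (e c)‖ := by
    intro x x' h
    obtain ⟨e, he, he'⟩ := hbij x x' h
    refine ⟨e, he', Finset.sum_nbij e he.mapsTo he.injOn he.surjOn fun c hc => by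
      rw [he' c hc, h], ?_⟩
    have b1 : ∑ c ∈ ch x, (σ (a x) (a c) : ℂ) * g (e c) = ∑ c ∈ ch x', σ (a x') (a c) * g c :=
      Finset.sum_nbij e he.mapsTo he.injOn he.surjOn fun c hc => by rw [he' c hc, h]
    have b2 : g x - g x' = g x * g x' * ∑ c ∈ ch x, σ (a x) (a c) * (g c - g (e c)) := by
      have c1 := h3 x
      have c2 := h3 x'
      rw [← b1, ← h] at c2
      simp only [mul_sub, Finset.sum_sub_distrib]
      linear_combination (g x') * c1 - (g x) * c2
    rw [b2, norm_mul, norm_mul]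
    apply mul_le_mul_of_nonneg_left _ (by positivity)
    refine (norm_sum_le _ _).trans (Finset.sum_le_sum fun c hc => ?_)
    rw [norm_mul, Complex.norm_real, Real.norm_of_nonneg (hσ x c hc)]
  have hga : ∀ x, ‖g x‖ ≤ α x * (√η)⁻¹ := by
    intro x
    have hs := Real.sqrt_pos.2 hz
    rw [← div_eq_mul_inv, le_div_iff₀ hs]
    apply le_of_sq_le_sq _ (hα0 x).le
    rw [mul_pow, Real.sq_sqrt hz.le, hα2]
    linarith [h2 x]
  set C := 2 * B * η⁻¹ * ((√η)⁻¹ * (√η)⁻¹) with hC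
  have hC0 : 0 ≤ C := by positivity
  have main : ∀ n : ℕ, ∀ x x', a x = a x' → ‖g x - g x'‖ ≤ C * θ ^ n * (α x * α x') := by
    intro n
    induction n with
    | zero =>
      intro x x' h
      obtain ⟨e, -, -, he⟩ := hdiff x x' h
      refine he.trans ?_
      have b1 : ∑ c ∈ ch x, σ (a x) (a c) * ‖g c - g (e c)‖ ≤ B * (2 * η⁻¹) := by
        refine le_trans (Finset.sum_le_sum (g := fun c => σ (a x) (a c) * (2 * η⁻¹))
          fun c hc => ?_) ?_
        · exact mul_le_mul_of_nonneg_left ((norm_sub_le _ _).trans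
            (by linarith [hn c, hn (e c)])) (hσ x c hc)
        · rw [← Finset.sum_mul]
          exact mul_le_mul_of_nonneg_right (hB x) (by positivity)
      have b2 : ‖g x‖ * ‖g x'‖ ≤ α x * (√η)⁻¹ * (α x' * (√η)⁻¹) :=
        mul_le_mul (hga x) (hga x') (norm_nonneg _) (by have := hα0 x; positivity)
      refine (mul_le_mul b2 b1 (Finset.sum_nonneg fun c hc =>
        mul_nonneg (hσ x c hc) (norm_nonneg _))
        (by have := hα0 x; have := hα0 x'; positivity)).trans (le_of_eq ?_)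
      rw [hC]; ring
    | succ n ih =>
      intro x x' h
      obtain ⟨e, he1, he2, he⟩ := hdiff x x' h
      set D := C * θ ^ n with hD
      have hD0 : 0 ≤ D := by positivity
      have hp : 0 < α x * α x' := mul_pos (hα0 x) (hα0 x')
      have b1 : 2 * (‖g x‖ * ‖g x'‖ * ∑ c ∈ ch x, σ (a x) (a c) * ‖g c - g (e c)‖) * (α x * α x')
          ≤ D * (α x' ^ 2 * (‖g x‖ ^ 2 * ∑ c ∈ ch x, σ (a x) (a c) * α c ^ 2)
            + α x ^ 2 * (‖g x'‖ ^ 2 * ∑ c ∈ ch x, σ (a x) (a c) * α (e c) ^ 2)) := by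
        simp only [Finset.mul_sum, Finset.sum_mul, mul_add, ← Finset.sum_add_distrib]
        refine Finset.sum_le_sum fun c hc => ?_
        have c1 := mul_le_mul_of_nonneg_left (amgm ‖g x‖ ‖g x'‖ (α c) (α (e c)) (α x) (α x'))
          (mul_nonneg hD0 (hσ x c hc))
        have c2 := mul_le_mul_of_nonneg_left (ih c (e c) (he1 c hc).symm)
          (show 0 ≤ 2 * (‖g x‖ * ‖g x'‖) * σ (a x) (a c) * (α x * α x') by
            have := hσ x c hc; positivity)
        nlinarith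
      rw [he2] at b1
      have b2 := mul_le_mul_of_nonneg_left (add_le_add
        (mul_le_mul_of_nonneg_left (hgap x) (sq_nonneg (α x')))
        (mul_le_mul_of_nonneg_left (hgap x') (sq_nonneg (α x)))) hD0
      have b3 := mul_le_mul_of_nonneg_right he hp.le
      have b4 : ‖g x - g x'‖ * (α x * α x') ≤ C * θ ^ (n + 1) * (α x * α x') * (α x * α x') := by
        rw [pow_succ, ← mul_assoc C, ← hD]
        nlinarith
      exact le_of_mul_le_mul_right b4 hp
  have hlim : Tendsto (fun n : ℕ => C * θ ^ n * (α x0 * α x0')) atTop (𝓝 (C * 0 * (α x0 * α x0'))) :=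
    ((tendsto_pow_atTop_nhds_zero_of_lt_one hθ0 hθ1).const_mul C).mul_const _
  have := ge_of_tendsto' hlim fun n => main n x0 x0' hx0
  simpa [sub_eq_zero] using this

end Pool.Agent.Lib.MP_ae9099_mp
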