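import Pool.Agent.Lib.MP_ae9099_mp.Main
import Pool.Agent.Lib.MP_ae9099_mp.Hol2
import Pool.Agent.Lib.MP_ae9099_mp.Defs2

/-!
Hölder continuity of the Green functions of label invariant operators up to the real axis.
-/

namespace Pool.Agent.Lib.MP_ae9099_mp

open Set Filter Topology ComplexConjugate

lemma Hol.toAxis {f : ℂ → ℂ} (h : Hol f) (h' : ExtendsToAxis f) : HolderToAxis f := by
  obtain ⟨C, hC, h⟩ := h
  obtain ⟨F, h1, h2, h3, h5⟩ := h'
  have h4 : ∀ z : ℂ, 0 ≤ z.im →
      Tendsto (fun η : ℝ => f (z + η * Complex.I)) (𝓝[>] 0) (𝓝 (F z)) := by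
    intro z hz
    have a1 : Tendsto (fun η : ℝ => z + η * Complex.I) (𝓝[>] 0) (𝓝[{z | 0 ≤ z.im}] z) := by
      refine tendsto_nhdsWithin_iff.2 ⟨?_, ?_⟩
      · have : Continuous fun η : ℝ => z + η * Complex.I := by fun_prop
        simpa using (this.tendsto 0).mono_left nhdsWithin_le_nhds
      · filter_upwards [self_mem_nhdsWithin] with η hη
        simpa using add_nonneg hz (le_of_lt hη)
    refine ((h1 z hz).tendsto.comp a1).congr' ?_
    filter_upwards [self_mem_nhdsWithin] with η hη
    exact h2 _ (by simpa using add_pos_of_nonneg_of_pos hz hη)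
  refine ⟨F, C, h2, h3, h5, fun z z' hz hz' => ?_⟩
  rcases eq_or_ne z z' with rfl | hne
  · simp
  refine le_of_tendsto ((h4 z hz).sub (h4 z' hz')).norm ?_
  filter_upwards [self_mem_nhdsWithin] with η hη
  refine (h _ (by simpa using add_pos_of_nonneg_of_pos hz hη)).2 _
    (by simpa using add_pos_of_nonneg_of_pos hz' hη) _
    (Real.rpow_pos_of_pos (norm_pos_iff.2 (sub_ne_zero.2 hne)) _) (le_of_eq ?_)
  rw [add_sub_add_right_eq_sub, ← Real.rpow_natCast, ← Real.rpow_mul (norm_nonneg _)]
  norm_num

section main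
variable {A V : Type*} [Fintype A] [DecidableEq A] {M : Matrix A A ℕ} {G : SimpleGraph V} {o : V}
  {a : V → A} {ν : V → ℝ} {t : V → V → ℂ} {w : V → ℝ} {m : A → A → ℝ} {m' : A → ℝ}
  {T : Op ν}

theorem main_hol (hM1 : ∀ j, 1 ≤ M j j) (hM2 : ∃ n, ∀ j k, 0 < (M ^ n) j k) (hG : G.IsTree)
    (hch : ∀ x l, {y | IsChild G o x y ∧ a y = l}.encard = M (a x) l)
    (hν : ∀ x, 0 < ν x) (hνa : ∀ x y, a x = a y → ν x = ν y)
    (ht0 : ∀ x y, t x y ≠ 0 ↔ G.Adj x y) (ht1 : ∀ x y, t x y * ν x = conj (t y x) * ν y)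
    (hm : ∀ x y, IsChild G o x y →
      ‖t x y‖ ^ 2 * M (a x) (a y) = m (a x) (a y) ∧ w x = m' (a x))
    (hT : IsSelfAdjoint T) (hTj : IsJacobi G ν t w T) (x : V) :
    (∀ δ : l2 ν, (∀ y, y ≠ x → ev ν δ y = 0) → Hol (green T δ)) ∧
    (∃ Tx, IsJacobi (G.induce (cone G o x)) (fun y => ν y) (fun y y' => t y y') (fun y => w y) Tx)
      ∧ ∀ Tx, IsJacobi (G.induce (cone G o x)) (fun y => ν y) (fun y y' => t y y') (fun y => w y) Tx
        → ∀ δ : l2 fun y : cone G o x => ν y,
          (∀ y : cone G o x, (y : V) ≠ x → ev (fun y : cone G o x => ν y) δ y = 0) →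
          Hol (green Tx δ) := by
  classical
  have hfl : ∀ x l, {y | IsChild G o x y ∧ a y = l}.Finite := fun x l =>
    Set.finite_of_encard_eq_coe (hch x l)
  have hchf : ∀ x, {y | IsChild G o x y}.Finite := fun x =>
    (Set.finite_iUnion (hfl x)).subset fun y hy => mem_iUnion.2 ⟨a y, hy, rfl⟩
  have hnf := finite_neighbors hG hchf
  set nb : V → Finset V := fun x => (hnf x).toFinset with hnbdef
  have hnb : ∀ x y, y ∈ nb x ↔ G.Adj x y := fun x y => by simp [hnbdef]
  set ch : V → Finset V := fun x => (hchf x).toFinset with hchdef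
  have hchm : ∀ x y, y ∈ ch x ↔ IsChild G o x y := fun x y => by simp [hchdef]
  have hT' : ∀ φ u, T φ u = tau nb t w φ u := fun φ u => by
    have := hTj φ u
    rw [finsum_mem_eq_finite_toFinset_sum _ (hnf u)] at this
    exact this
  have hreal : ∀ f, Sq ν f →
      ∃ r : ℝ, HasSum (fun u => (ν u : ℂ) * (conj (f u) * tau nb t w f u)) r := by
    intro f hf
    have h1 := hasSum_inner hν (mk hν f hf) (T (mk hν f hf))
    simp only [hT', mk_coe] at h1
    refine ⟨(inner ℂ (mk hν f hf) (T (mk hν f hf))).re, ?_⟩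
    convert h1 using 1
    rw [← Complex.conj_eq_iff_re, inner_conj_symm]
    exact hT.isSymmetric _ _
  have hfull : ∀ x z, 0 < z.im → ∃ f, Sol nb t w ν univ x z 1 f := by
    intro x z hz
    have h1 := resolvent_eq hT hz (mk hν _ (sq_single x))
    refine ⟨_, sq_coe hν (Ring.inverse (T - z • 1) (mk hν _ (sq_single x))),
      fun y hy => absurd (mem_univ y) hy, fun u _ => ?_⟩
    rw [← hT', ← l2_smul hν, ← l2_sub hν, h1, mk_coe, Pi.single_apply]
  have hcone : ∀ z, 0 < z.im → ∀ x, ∃ f, Sol nb t w ν (cone G o x) x z 1 f := by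
    intro z hz x
    have hx := mem_cone_root (o := o) hG x
    induction hx with
    | refl =>
      rw [eq_univ_of_forall (mem_cone_root (o := o) hG)]
      exact hfull o z hz
    | @tail p c _ hc ih =>
      obtain ⟨f, hf⟩ := ih
      have h1 := (hf.restrict hν hG hnb hc (cone_subset hc)).smul hν (-(t c p * f p))⁻¹
      rw [inv_mul_cancel₀] at h1
      · exact ⟨_, h1⟩
      · have h2 := (hf.im_bound hν hreal hz (cone_self p)).1
        have h3 : f p ≠ 0 := fun h => by simp [h] at h2
        exact neg_ne_zero.2 (mul_ne_zero ((ht0 c p).2 hc.1.symm) h3)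
  choose! φ hφ using hfull
  choose! ψ hψ using hcone
  have hval : ∀ z, 0 < z.im → ∀ {S p c f}, IsChild G o p c → cone G o c ⊆ S →
      Sol nb t w ν S p z 1 f → f c = -(t c p * f p) * ψ z c c := by
    intro z hz S p c f hc hS hf
    have := congrFun ((hψ z hz c).unique hν hreal hz (hf.restrict hν hG hnb hc hS)) c
    rwa [indicator_of_mem (cone_self c)] at this
  have hrec0 : ∀ z, 0 < z.im → ∀ x,
      ψ z x x * (w x - z - ∑ c ∈ ch x, t x c * t c x * ψ z c c) = 1 := by
    intro z hz x
    have h1 := (hψ z hz x).2.2 x (cone_self x)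
    rw [if_pos rfl, tau] at h1
    have h2 : ∑ y ∈ nb x, t x y * ψ z x y = ∑ c ∈ ch x, t x c * ψ z x c := by
      symm
      refine Finset.sum_subset (fun y hy => (hnb x y).2 ((hchm x y).1 hy).1) fun y hy hy' => ?_
      rcases adj_cases (o := o) hG ((hnb x y).1 hy) with h | h
      · exact absurd ((hchm x y).2 h) hy'
      · rw [(hψ z hz x).2.1 y (parent_not_mem h), mul_zero]
    have h3 : ∑ c ∈ ch x, t x c * ψ z x c
        = -(ψ z x x * ∑ c ∈ ch x, t x c * t c x * ψ z c c) := by
      rw [Finset.mul_sum, ← Finset.sum_neg_distrib]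
      refine Finset.sum_congr rfl fun c hc => ?_
      have hc' := (hchm x c).1 hc
      rw [hval z hz hc' (cone_subset hc') (hψ z hz x)]
      ring
    rw [h2, h3] at h1
    linear_combination h1
  have hchild : ∀ x l, 0 < M (a x) l → ∃ c, IsChild G o x c ∧ a c = l := by
    intro x l h
    have : {y | IsChild G o x y ∧ a y = l}.encard ≠ 0 := by
      rw [hch]; exact_mod_cast h.ne'
    exact Set.encard_ne_zero.1 this
  have hMpos : ∀ {x c}, IsChild G o x c → 0 < M (a x) (a c) := by
    intro x c h
    have : {y | IsChild G o x y ∧ a y = a c}.encard ≠ 0 := Set.encard_ne_zero.2 ⟨c, h, rfl⟩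
    rw [hch] at this
    exact Nat.pos_of_ne_zero (by exact_mod_cast this)
  have hirrM : ∀ P : A → Prop, (∀ j k, P j → 0 < M j k → P k) → ∀ j k, P j → P k := by
    intro P hP
    obtain ⟨n, hn⟩ := hM2
    have : ∀ n j k, 0 < (M ^ n) j k → P j → P k := by
      intro n
      induction n with
      | zero =>
        intro j k h hj
        by_cases e : j = k
        · exact e ▸ hj
        · simp [Matrix.one_apply_ne e] at h
      | succ n ih =>
        intro j k h hj
        rw [pow_succ, Matrix.mul_apply] at h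
        obtain ⟨l, -, hl⟩ := Finset.exists_ne_zero_of_sum_ne_zero h.ne'
        rw [mul_ne_zero_iff] at hl
        exact hP l k (ih j l (Nat.pos_of_ne_zero hl.1) hj) (Nat.pos_of_ne_zero hl.2)
    exact fun j k => this n j k (hn j k)
  have hsurj : ∀ k, ∃ y, a y = k := fun k =>
    hirrM (fun k => ∃ y, a y = k) (by
      rintro _ k ⟨y, rfl⟩ h
      obtain ⟨c, -, hc⟩ := hchild y k h
      exact ⟨c, hc⟩) (a o) k ⟨o, rfl⟩
  choose rep hrep using hsurj
  have hw : ∀ x, w x = m' (a x) := fun x => by
    obtain ⟨c, hc, -⟩ := hchild x (a x) (hM1 _)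
    exact (hm x c hc).2
  set σ : A → A → ℝ := fun j k => m j k / M j k * (ν (rep j) / ν (rep k)) with hσdef
  have hσ : ∀ {x c}, IsChild G o x c → t x c * t c x = σ (a x) (a c) ∧ 0 < σ (a x) (a c) := by
    intro x c h
    have h1 : (0 : ℝ) < M (a x) (a c) := by exact_mod_cast hMpos h
    have h2 : σ (a x) (a c) = ‖t x c‖ ^ 2 * (ν x / ν c) := by
      simp only [hσdef]
      rw [← (hm x c h).1, mul_div_cancel_right₀ _ h1.ne', hνa (rep (a x)) x (hrep _),
        hνa (rep (a c)) c (hrep _)]
    rw [h2]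
    constructor
    · have h3 := ht1 c x
      have h4 : (ν c : ℂ) ≠ 0 := by exact_mod_cast (hν c).ne'
      push_cast
      rw [← Complex.mul_conj', ← mul_div_assoc, eq_div_iff h4]
      linear_combination (t x c) * h3
    · have := norm_pos_iff.2 ((ht0 x c).2 h.1)
      have := hν x
      have := hν c
      positivity
  have hsum : ∀ {R : Type} [Semiring R] (F : A → R) (x : V),
      ∑ c ∈ ch x, F (a c) = ∑ k, M (a x) k * F k := by
    intro R _ F x
    rw [← Finset.sum_fiberwise (ch x) a]
    refine Finset.sum_congr rfl fun k _ => ?_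
    rw [Finset.sum_congr rfl (g := fun _ => F k) fun c hc => by rw [(Finset.mem_filter.1 hc).2],
      Finset.sum_const, nsmul_eq_mul]
    congr 2
    have h1 : ((ch x).filter (a · = k) : Set V) = {y | IsChild G o x y ∧ a y = k} := by
      ext y; simp [hchm]
    have h2 := hch x k
    rw [← h1, Set.encard_coe_eq_coe_finsetCard] at h2
    exact_mod_cast h2
  set S : A → A → ℝ := fun j k => M j k * σ j k with hSdef
  have hSpos : ∀ j k, 0 < M j k → 0 < S j k := by
    intro j k h
    obtain ⟨c, hc, rfl⟩ := hchild (rep j) k (by rwa [hrep])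
    have := (hσ hc).2
    rw [hrep] at this
    exact mul_pos (by exact_mod_cast h) this
  have hS0 : ∀ j k, 0 ≤ S j k := fun j k => by
    rcases Nat.eq_zero_or_pos (M j k) with h | h
    · simp [hSdef, h]
    · exact (hSpos j k h).le
  have hrec : ∀ z, 0 < z.im → ∀ x,
      ψ z x x * (m' (a x) - z - ∑ c ∈ ch x, σ (a x) (a c) * ψ z c c) = 1 := by
    intro z hz x
    rw [← hrec0 z hz x, hw x]
    congr 2
    exact Finset.sum_congr rfl fun c hc => by rw [(hσ ((hchm x c).1 hc)).1]
  have hinv : ∀ z, 0 < z.im → ∀ x x', a x = a x' → ψ z x x = ψ z x' x' := by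
    intro z hz
    refine label_invariant a ch σ m' (∑ j, ∑ k, S j k)
      (fun x c hc => (hσ ((hchm x c).1 hc)).2.le) (fun x => ?_) (fun x x' h => ?_) hz
      (fun x => ψ z x x) (fun x => ((hψ z hz x).im_bound hν hreal hz (cone_self x)).1)
      (fun x => ((hψ z hz x).im_bound hν hreal hz (cone_self x)).2) (hrec z hz)
    · rw [hsum (σ (a x)) x]
      exact Finset.single_le_sum (f := fun j => ∑ k, S j k)
        (fun j _ => Finset.sum_nonneg fun k _ => hS0 j k) (Finset.mem_univ (a x))
    · have : Nonempty V := ⟨o⟩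
      have hb : ∀ l, ∃ f : V → V, BijOn f {y | IsChild G o x y ∧ a y = l}
          {y | IsChild G o x' y ∧ a y = l} := fun l =>
        (hfl x l).exists_bijOn_of_encard_eq (by rw [hch, hch, h])
      choose f hf using hb
      have hmaps : ∀ c, IsChild G o x c → IsChild G o x' (f (a c) c) ∧ a (f (a c) c) = a c :=
        fun c hc => (hf (a c)).mapsTo ⟨hc, rfl⟩
      refine ⟨fun c => f (a c) c, ⟨fun c hc => ?_, fun c hc c' hc' e => ?_, fun y hy => ?_⟩,
        fun c hc => (hmaps c ((hchm x c).1 hc)).2⟩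
      · exact (hchm _ _).2 (hmaps c ((hchm x c).1 hc)).1
      · have h1 := (hchm x c).1 hc
        have h2 := (hchm x c').1 hc'
        have h3 : a c' = a c := by
          rw [← (hmaps c h1).2, ← (hmaps c' h2).2]
          exact congrArg a e.symm
        simp only [h3] at e
        exact (hf (a c)).injOn ⟨h1, rfl⟩ ⟨h2, h3⟩ e
      · obtain ⟨c, hc, e⟩ := (hf (a y)).surjOn ⟨(hchm x' y).1 hy, rfl⟩
        exact ⟨c, (hchm x c).2 hc.1, by simp only [hc.2, e]⟩
  have hΓ : ∀ x, Hol fun z => ψ z x x := by
    have : Nonempty A := ⟨a o⟩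
    have hY := qve_holder (w := m') hS0 (fun j => hSpos j j (hM1 j))
      (fun P hP => hirrM P fun j k hj h => hP j k hj (hSpos j k h))
      (fun z j => ψ z (rep j) (rep j))
      (fun z hz j => ((hψ z hz _).im_bound hν hreal hz (cone_self _)).1) (fun z hz j => by
        have h1 := hrec z hz (rep j)
        have h2 : ∑ c ∈ ch (rep j), (σ (a (rep j)) (a c) : ℂ) * ψ z c c
            = ∑ c ∈ ch (rep j), (σ j (a c) : ℂ) * ψ z (rep (a c)) (rep (a c)) :=
          Finset.sum_congr rfl fun c _ => by rw [hrep, hinv z hz c (rep (a c)) (hrep _).symm]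
        rw [h2, hsum (fun k => (σ j k : ℂ) * ψ z (rep k) (rep k)), hrep] at h1
        simpa only [hSdef, Complex.ofReal_mul, Complex.ofReal_natCast, mul_assoc] using h1)
    exact fun x => (hY (a x)).congr fun z hz => hinv z hz _ _ (hrep _)
  have hGf : ∀ x, Hol fun z => φ x z x := by
    intro x
    have hx := mem_cone_root (o := o) hG x
    induction hx with
    | refl =>
      refine (hΓ o).congr fun z hz => ?_
      have h1 := hψ z hz o
      rw [eq_univ_of_forall (mem_cone_root (o := o) hG)] at h1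
      rw [h1.unique hν hreal hz (hφ o z hz), one_smul]
    | @tail p c _ hc ih =>
      refine ((hΓ c).add (((Hol.const (t p c * t c p)).mul ((hΓ c).mul (hΓ c))).mul ih)).congr
        fun z hz => ?_
      have h1 := hψ z hz c
      have h2 := (hφ p z hz).smul hν (-(t p c * ψ z c c))
      have h3 : Sol nb t w ν univ c z 1 (ψ z c + (-(t p c * ψ z c c)) • φ p z) := by
        refine ⟨h1.1.add hν h2.1, fun y hy => absurd (mem_univ y) hy, fun u _ => ?_⟩
        have b2 := h2.2.2 u (mem_univ u)
        rw [tau_add, Pi.add_apply]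
        by_cases hu : u ∈ cone G o c
        · have b1 := h1.2.2 u hu
          rw [if_neg (fun h' : u = p => parent_not_mem hc (h' ▸ hu))] at b2
          linear_combination b1 + b2
        · have b1 := tau_of_notMem (t := t) (w := w) hG hnb hc h1.2.1 hu
          rw [if_neg (fun h' : u = c => hu (by rw [h']; exact cone_self c)), h1.2.1 u hu]
          split_ifs at b1 b2 <;> linear_combination b1 + b2
      have h4 := congrFun ((hφ c z hz).unique hν hreal hz h3) c
      simp only [Pi.add_apply, Pi.smul_apply, smul_eq_mul, one_mul] at h4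
      rw [← h4, hval z hz hc (subset_univ _) (hφ p z hz)]
      ring
  have hform : ∀ (φ : cone G o x → ℂ) (u : cone G o x),
      (∑ᶠ y ∈ (G.induce (cone G o x)).neighborSet u, t u y * φ y) + w u * φ u
        = tau nb t w (Function.extend Subtype.val φ 0) u := by
    intro φ u
    rw [tau, Subtype.val_injective.extend_apply]
    congr 1
    have h1 : ((G.induce (cone G o x)).neighborSet u : Set (cone G o x))
        = ((nb u).subtype (· ∈ cone G o x) : Finset _) := by
      ext y; simp [hnb]
    rw [h1, finsum_mem_coe_finset]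
    rw [Finset.sum_congr rfl (g := fun y : cone G o x => t u y * Function.extend Subtype.val φ 0 y)
      fun y _ => by rw [Subtype.val_injective.extend_apply],
      Finset.sum_subtype_eq_sum_filter (fun y => t u y * Function.extend Subtype.val φ 0 y)]
    refine Finset.sum_subset (Finset.filter_subset _ _) fun y hy hy' => ?_
    rw [Function.extend_apply' _ _ _ (by simpa [hy] using hy')]
    simp
  refine ⟨fun δ hδ => ?_, ⟨(resL Subtype.val_injective hν).comp
    (T.comp (extL Subtype.val_injective hν)), fun φ u => ?_⟩, fun Tx hTx δ hδ => ?_⟩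
  · refine ((Hol.const (ν x * (conj (δ x) * δ x))).mul (hGf x)).congr fun z hz => ?_
    exact (green_eq (ι := id) Function.injective_id hν hreal (B := T)
      (fun φ u => by rw [hT', Function.extend_id]; rfl) hδ hz
      (by rw [range_id]; exact hφ x z hz)).symm
  · rw [hform]
    have := congrFun (resL_coe Subtype.val_injective hν (T (extL Subtype.val_injective hν φ))) u
    refine this.trans ?_
    rw [Function.comp_apply, hT', extL_coe]
    rfl
  · refine ((Hol.const (ν x * (conj (δ ⟨x, cone_self x⟩) * δ ⟨x, cone_self x⟩))).mul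
      (hΓ x)).congr fun z hz => ?_
    exact (green_eq (ι := Subtype.val) Subtype.val_injective hν hreal (B := Tx)
      (fun φ u => (hTx φ u).trans (hform _ u)) (x := ⟨x, cone_self x⟩)
      (fun y hy => hδ y fun h => hy (Subtype.ext h)) hz
      (by rw [Subtype.range_coe]; exact hψ z hz x)).symm

end main

end Pool.Agent.Lib.MP_ae9099_mp
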