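import Mathlib

/-!
Continuity up to the real axis of the solution of a quadratic vector equation with an irreducible
nonnegative matrix with positive diagonal.
-/

namespace Pool.Agent.Lib.MP_ae9099_mp

open Set Complex Filter Topology

variable {A : Type*} [Fintype A]

/-- Stable solutions in the closed upper half-plane. -/
def Good (S : A → A → ℝ) (w : A → ℝ) (z : ℂ) (y : A → ℂ) (u : A → ℝ) : Prop :=
  0 ≤ z.im ∧ (∀ j, 0 ≤ (y j).im) ∧ (∀ j, y j * (w j - z - ∑ k, S j k * y k) = 1) ∧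
    (∀ j, 0 ≤ u j) ∧ ∑ j, u j = 1 ∧ ∀ j, ‖y j‖ ^ 2 * ∑ k, S j k * u k ≤ u j

variable {S : A → A → ℝ} {w : A → ℝ}

lemma amgm (p q a b c d : ℝ) : 2 * (p * q * (a * b)) * (c * d)
    ≤ d ^ 2 * p ^ 2 * a ^ 2 + c ^ 2 * q ^ 2 * b ^ 2 := by
  nlinarith [sq_nonneg (d * p * a - c * q * b)]

section
variable (hS : ∀ j k, 0 ≤ S j k) (hd : ∀ j, 0 < S j j)
  (hirr : ∀ P : A → Prop, (∀ j k, P j → 0 < S j k → P k) → ∀ j k, P j → P k)
include hS hd hirr

lemma Good.pos {z : ℂ} {y : A → ℂ} {u : A → ℝ} (h : Good S w z y u) (j : A) : 0 < u j := by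
  obtain ⟨-, -, h3, h4, h5, h6⟩ := h
  by_contra hc
  have h0 : u j = 0 := le_antisymm (not_lt.1 hc) (h4 j)
  have hall : ∀ k, u k = 0 := fun k => by
    refine hirr (fun k => u k = 0) (fun i k hi hik => ?_) j k h0
    have hy : 0 < ‖y i‖ ^ 2 := by
      have : y i ≠ 0 := by
        intro h; have := h3 i; rw [h, zero_mul] at this; exact zero_ne_one this
      positivity
    have h7 := h6 i
    rw [hi] at h7
    have h8 : ∑ k, S i k * u k ≤ 0 := by
      by_contra hc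
      have := mul_pos hy (not_le.1 hc)
      linarith
    have h9 : S i k * u k ≤ ∑ k, S i k * u k :=
      Finset.single_le_sum (f := fun k => S i k * u k)
        (fun k _ => mul_nonneg (hS i k) (h4 k)) (Finset.mem_univ k)
    have h10 : u k ≤ 0 := by
      by_contra hc
      have := mul_pos hik (not_le.1 hc)
      linarith
    exact le_antisymm h10 (h4 k)
  simp [hall] at h5

lemma Good.bound {z : ℂ} {y : A → ℂ} {u : A → ℝ} (h : Good S w z y u) (j : A) :
    ‖y j‖ ≤ 1 + (S j j)⁻¹ := by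
  have hu := h.pos hS hd hirr j
  have h9 : S j j * u j ≤ ∑ k, S j k * u k :=
    Finset.single_le_sum (f := fun k => S j k * u k)
      (fun k _ => mul_nonneg (hS j k) (h.2.2.2.1 k)) (Finset.mem_univ j)
  have h1 : ‖y j‖ ^ 2 * S j j * u j ≤ 1 * u j := by
    nlinarith [h.2.2.2.2.2 j, mul_le_mul_of_nonneg_left h9 (sq_nonneg ‖y j‖)]
  have h2 : ‖y j‖ ^ 2 * S j j ≤ 1 := le_of_mul_le_mul_right h1 hu
  have h3 : ‖y j‖ ^ 2 ≤ (S j j)⁻¹ := by
    rw [← one_div, le_div_iff₀ (hd j)]; exact h2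
  nlinarith [sq_nonneg (‖y j‖ - 1)]

lemma Good.unique {z : ℂ} {y y' : A → ℂ} {u u' : A → ℝ} (h : Good S w z y u)
    (h' : Good S w z y' u') : y = y' := by
  classical
  by_contra hne
  obtain ⟨i, hi⟩ := Function.ne_iff.1 hne
  set a : A → ℝ := fun k => √(u k) with ha
  set b : A → ℝ := fun k => √(u' k) with hb
  have ha0 : ∀ k, 0 < a k := fun k => Real.sqrt_pos.2 (h.pos hS hd hirr k)
  have hb0 : ∀ k, 0 < b k := fun k => Real.sqrt_pos.2 (h'.pos hS hd hirr k)
  have ha2 : ∀ k, a k ^ 2 = u k := fun k => Real.sq_sqrt (h.2.2.2.1 k)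
  have hb2 : ∀ k, b k ^ 2 = u' k := fun k => Real.sq_sqrt (h'.2.2.2.1 k)
  obtain ⟨j, -, hj⟩ := Finset.exists_max_image Finset.univ
    (fun k => ‖y k - y' k‖ / (a k * b k)) ⟨i, Finset.mem_univ i⟩
  set lam := ‖y j - y' j‖ / (a j * b j) with hlam
  have hab : ∀ k, 0 < a k * b k := fun k => mul_pos (ha0 k) (hb0 k)
  have hlam0 : 0 < lam := lt_of_lt_of_le (div_pos (norm_pos_iff.2 (sub_ne_zero.2 hi)) (hab i))
    (hj i (Finset.mem_univ i))
  have hk : ∀ k, ‖y k - y' k‖ ≤ lam * (a k * b k) := fun k =>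
    (div_le_iff₀ (hab k)).1 (hj k (Finset.mem_univ k))
  have hjj : ‖y j - y' j‖ = lam * (a j * b j) := by
    rw [hlam, div_mul_cancel₀ _ (hab j).ne']
  have hD : 0 < ‖y j - y' j‖ := by rw [hjj]; exact mul_pos hlam0 (hab j)
  have e1 : y j - y' j = y j * y' j * ∑ k, S j k * (y k - y' k) := by
    have h1 := h.2.2.1 j
    have h2 := h'.2.2.1 j
    have h3 : ∑ k, (S j k : ℂ) * (y k - y' k) = ∑ k, S j k * y k - ∑ k, S j k * y' k := by
      rw [← Finset.sum_sub_distrib]; exact Finset.sum_congr rfl fun k _ => by ring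
    rw [h3]
    linear_combination (y' j) * h1 - (y j) * h2
  have e2 : (1 - y j * y' j * S j j) * (y j - y' j)
      = y j * y' j * ∑ k ∈ Finset.univ.erase j, S j k * (y k - y' k) := by
    rw [← Finset.add_sum_erase _ _ (Finset.mem_univ j)] at e1
    linear_combination e1
  have e3 : ‖1 - y j * y' j * S j j‖ * (lam * (a j * b j))
      ≤ ‖y j‖ * ‖y' j‖ * ∑ k ∈ Finset.univ.erase j, S j k * (lam * (a k * b k)) := by
    rw [← hjj, ← norm_mul, e2, norm_mul, norm_mul]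
    apply mul_le_mul_of_nonneg_left _ (by positivity)
    refine (norm_sum_le _ _).trans (Finset.sum_le_sum fun k _ => ?_)
    rw [norm_mul, Complex.norm_real, Real.norm_of_nonneg (hS j k)]
    exact mul_le_mul_of_nonneg_left (hk k) (hS j k)
  have e4 : 1 - (y j * y' j).re * S j j ≤ ‖1 - y j * y' j * S j j‖ := by
    refine le_trans (le_of_eq ?_) (re_le_norm _)
    simp
  have e5 : 2 * (‖y j‖ * ‖y' j‖ * ∑ k ∈ Finset.univ.erase j, S j k * (lam * (a k * b k)))
      * (a j * b j) ≤ lam * (b j ^ 2 * (‖y j‖ ^ 2 * ∑ k ∈ Finset.univ.erase j, S j k * u k)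
        + a j ^ 2 * (‖y' j‖ ^ 2 * ∑ k ∈ Finset.univ.erase j, S j k * u' k)) := by
    simp only [Finset.mul_sum, Finset.sum_mul, mul_add, ← Finset.sum_add_distrib]
    refine Finset.sum_le_sum fun k _ => ?_
    have := mul_le_mul_of_nonneg_left (amgm ‖y j‖ ‖y' j‖ (a k) (b k) (a j) (b j))
      (mul_nonneg hlam0.le (hS j k))
    rw [← ha2 k, ← hb2 k]
    nlinarith
  have e6 := h.2.2.2.2.2 j
  have e7 := h'.2.2.2.2.2 j
  rw [← Finset.add_sum_erase _ _ (Finset.mem_univ j), ← ha2 j] at e6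
  rw [← Finset.add_sum_erase _ _ (Finset.mem_univ j), ← hb2 j] at e7
  set X := ∑ k ∈ Finset.univ.erase j, S j k * u k
  set X' := ∑ k ∈ Finset.univ.erase j, S j k * u' k
  have e8 : 2 * ((1 - (y j * y' j).re * S j j) * (lam * (a j * b j))) * (a j * b j)
      ≤ lam * (b j ^ 2 * (a j ^ 2 - ‖y j‖ ^ 2 * S j j * a j ^ 2)
        + a j ^ 2 * (b j ^ 2 - ‖y' j‖ ^ 2 * S j j * b j ^ 2)) := by
    have f1 := mul_le_mul_of_nonneg_right e4 (mul_pos hlam0 (hab j)).le
    have f2 := mul_le_mul_of_nonneg_right (f1.trans e3) (hab j).le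
    have f3 : ‖y j‖ ^ 2 * X ≤ a j ^ 2 - ‖y j‖ ^ 2 * S j j * a j ^ 2 := by linarith
    have f4 : ‖y' j‖ ^ 2 * X' ≤ b j ^ 2 - ‖y' j‖ ^ 2 * S j j * b j ^ 2 := by linarith
    have f5 := mul_le_mul_of_nonneg_left f3 (sq_nonneg (b j))
    have f6 := mul_le_mul_of_nonneg_left f4 (sq_nonneg (a j))
    have f7 := mul_le_mul_of_nonneg_left (add_le_add f5 f6) hlam0.le
    linarith
  have e9 : ‖y j‖ ^ 2 + ‖y' j‖ ^ 2 ≤ 2 * (y j * y' j).re := by
    have hpos : 0 < lam * (a j * b j) ^ 2 * S j j := by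
      have := hab j; have := hd j; positivity
    by_contra hc
    have := mul_pos hpos (sub_pos.2 (not_le.1 hc))
    nlinarith
  rw [Complex.sq_norm, Complex.sq_norm, normSq_apply, normSq_apply, mul_re] at e9
  have g1 := h.2.1 j
  have g2 := h'.2.1 j
  have g3 : (y j).re = (y' j).re := by
    nlinarith [sq_nonneg ((y j).im + (y' j).im), sq_nonneg ((y j).re - (y' j).re)]
  have g4 : (y j).im + (y' j).im = 0 := by
    nlinarith [sq_nonneg ((y j).im + (y' j).im), sq_nonneg ((y j).re - (y' j).re)]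
  have : y j = y' j := Complex.ext g3 (by linarith)
  rw [this] at hD
  simp at hD

omit hS hd hirr in
lemma good_of_pos [Nonempty A] {z : ℂ} (hz : 0 < z.im) {y : A → ℂ} (hy : ∀ j, 0 < (y j).im)
    (he : ∀ j, y j * (w j - z - ∑ k, S j k * y k) = 1) : ∃ u, Good S w z y u := by
  have hs : 0 < ∑ j, (y j).im := Finset.sum_pos (fun j _ => hy j) Finset.univ_nonempty
  refine ⟨fun j => (y j).im / ∑ j, (y j).im, hz.le, fun j => (hy j).le, he,
    fun j => (div_pos (hy j) hs).le, by rw [← Finset.sum_div, div_self hs.ne'], fun j => ?_⟩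
  have h1 : (‖y j‖ ^ 2 : ℝ) * (w j - z - ∑ k, S j k * y k) = (starRingEnd ℂ) (y j) := by
    rw [Complex.sq_norm, normSq_eq_conj_mul_self, mul_assoc, he j, mul_one]
  have h2 := congrArg Complex.im h1
  simp only [mul_im, ofReal_re, ofReal_im, zero_mul, add_zero, sub_im, im_sum, conj_im,
    zero_sub] at h2
  simp only [mul_div_assoc', ← Finset.sum_div]
  apply div_le_div_of_nonneg_right _ hs.le
  nlinarith [mul_nonneg (sq_nonneg ‖y j‖) hz.le]

theorem qve_extension [Nonempty A] (y : ℂ → A → ℂ) (hy : ∀ z, 0 < z.im → ∀ j, 0 < (y z j).im)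
    (he : ∀ z, 0 < z.im → ∀ j, y z j * (w j - z - ∑ k, S j k * y z k) = 1) :
    ∃ Y : ℂ → A → ℂ, ContinuousOn Y {z | 0 ≤ z.im} ∧ ∀ z, 0 < z.im → Y z = y z := by
  classical
  set Z : Set ((A → ℂ) × (A → ℝ)) :=
    (univ.pi fun j => Metric.closedBall (0 : ℂ) (1 + (S j j)⁻¹)) ×ˢ (univ.pi fun _ => Icc 0 1)
    with hZ
  have hZc : IsCompact Z := (isCompact_univ_pi fun j => isCompact_closedBall _ _).prod
    (isCompact_univ_pi fun _ => isCompact_Icc)
  have : CompactSpace Z := isCompact_iff_compactSpace.1 hZc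
  have hmem : ∀ {z y u}, Good S w z y u → (y, u) ∈ Z := by
    intro z y u h
    refine ⟨fun j _ => by simpa using h.bound hS hd hirr j, fun j _ => ⟨h.2.2.2.1 j, ?_⟩⟩
    rw [← h.2.2.2.2.1]
    exact Finset.single_le_sum (f := u) (fun k _ => h.2.2.2.1 k) (Finset.mem_univ j)
  set K : Set (ℂ × Z) := {p | Good S w p.1 p.2.1.1 p.2.1.2} with hK
  have hKc : IsClosed K := by
    simp only [hK, Good, ofPred_and, ofPred_forall]
    refine (isClosed_le (by fun_prop) (by fun_prop)).inter (IsClosed.inter (isClosed_iInter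
      fun j => isClosed_le (by fun_prop) (by fun_prop)) (IsClosed.inter (isClosed_iInter
      fun j => isClosed_eq (by fun_prop) (by fun_prop)) (IsClosed.inter (isClosed_iInter
      fun j => isClosed_le (by fun_prop) (by fun_prop)) (IsClosed.inter
      (isClosed_eq (by fun_prop) (by fun_prop)) (isClosed_iInter
      fun j => isClosed_le (by fun_prop) (by fun_prop))))))
  have hex : ∀ z : ℂ, 0 ≤ z.im → ∃ y u, Good S w z y u := by
    intro z hz
    have h1 : {z : ℂ | 0 < z.im} ⊆ Prod.fst '' K := by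
      intro z hz
      obtain ⟨u, hu⟩ := good_of_pos hz (hy z hz) (he z hz)
      exact ⟨(z, ⟨_, hmem hu⟩), hu, rfl⟩
    have h2 := closure_minimal h1 (isClosedMap_fst_of_compactSpace K hKc)
    rw [closure_setOfPred_lt_im] at h2
    obtain ⟨p, hp, rfl⟩ := h2 hz
    exact ⟨_, _, hp⟩
  choose! Y U hY using hex
  refine ⟨Y, ?_, fun z hz => ?_⟩
  · rw [continuousOn_iff_isClosed]
    intro C hC
    refine ⟨Prod.fst '' (K ∩ {p | p.2.1.1 ∈ C}), isClosedMap_fst_of_compactSpace _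
      (hKc.inter (hC.preimage (by fun_prop))), ?_⟩
    ext z
    constructor
    · rintro ⟨h1, h2⟩
      exact ⟨⟨(z, ⟨_, hmem (hY z h2)⟩), ⟨hY z h2, h1⟩, rfl⟩, h2⟩
    · rintro ⟨⟨p, ⟨hp1, hp2⟩, rfl⟩, h2⟩
      refine ⟨?_, h2⟩
      show Y p.1 ∈ C
      rw [(hY _ h2).unique hS hd hirr hp1]
      exact hp2
  · obtain ⟨u, hu⟩ := good_of_pos hz (hy z hz) (he z hz)
    exact (hY z hz.le).unique hS hd hirr hu

end

end Pool.Agent.Lib.MP_ae9099_mp
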