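import Pool.Agent.Lib.MP_ae9099_mp.L2

/-!
Combinatorics of rooted trees and square-summable solutions of the resolvent equation.
-/

namespace Pool.Agent.Lib.MP_ae9099_mp

open Set Filter Topology ComplexConjugate SimpleGraph

variable {V : Type*} {G : SimpleGraph V} {o : V}

section tree
variable (hG : G.IsTree)
include hG

lemma adj_cases {x y : V} (h : G.Adj x y) : IsChild G o x y ∨ IsChild G o y x := by
  rcases hG.dist_eq_dist_add_one_of_adj o h with h' | h'
  · exact Or.inr ⟨h.symm, h'⟩
  · exact Or.inl ⟨h, h'⟩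

lemma parent_unique {p p' y : V} (h : IsChild G o p y) (h' : IsChild G o p' y) : p = p' := by
  obtain ⟨q, -, hq⟩ := hG.connected.exists_path_of_dist o p
  obtain ⟨q', -, hq'⟩ := hG.connected.exists_path_of_dist o p'
  have h1 : (q.concat h.1).IsPath := Walk.isPath_of_length_eq_dist _ (by
    rw [Walk.length_concat, hq, h.2])
  have h2 : (q'.concat h'.1).IsPath := Walk.isPath_of_length_eq_dist _ (by
    rw [Walk.length_concat, hq', h'.2])
  have := hG.isAcyclic.subsingleton_path o y |>.elim ⟨_, h1⟩ ⟨_, h2⟩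
  exact (Walk.concat_inj (congrArg Subtype.val this)).1

lemma mem_cone_root (y : V) : y ∈ cone G o o := by
  induction h : G.dist o y generalizing y with
  | zero =>
    rw [hG.connected.dist_eq_zero_iff] at h
    subst h
    exact Relation.ReflTransGen.refl
  | succ n ih =>
    obtain ⟨q, hq⟩ := hG.connected.exists_walk_length_eq_dist y o
    cases q with
    | nil => simp at h
    | cons hadj q =>
      rename_i p
      have h1 : G.dist o p ≤ n := by
        have := dist_le q
        rw [dist_comm] at this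
        rw [Walk.length_cons, dist_comm, h] at hq
        omega
      rcases adj_cases (o := o) hG hadj with h2 | h2
      · have := h2.2; omega
      · exact Relation.ReflTransGen.tail (ih p (by have := h2.2; omega)) h2

omit hG in
lemma dist_le_of_mem_cone {x y : V} (h : y ∈ cone G o x) : G.dist o x ≤ G.dist o y := by
  induction h with
  | refl => exact le_rfl
  | tail _ h ih => have := h.2; omega

omit hG in
lemma parent_not_mem {x c : V} (h : IsChild G o x c) : x ∉ cone G o c := fun h' => by
  have := dist_le_of_mem_cone h'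
  have := h.2
  omega

omit hG in
lemma cone_self (x : V) : x ∈ cone G o x := Relation.ReflTransGen.refl

omit hG in
lemma cone_subset {x c : V} (h : IsChild G o x c) : cone G o c ⊆ cone G o x :=
  fun _ hy => Relation.ReflTransGen.head h hy

lemma exit_cone {x c u y : V} (h : IsChild G o x c) (hu : u ∈ cone G o c) (hy : y ∉ cone G o c)
    (hadj : G.Adj u y) : u = c ∧ y = x := by
  rcases adj_cases (o := o) hG hadj with h1 | h1
  · exact absurd (Relation.ReflTransGen.tail hu h1) hy
  · rcases Relation.ReflTransGen.cases_tail hu with h2 | ⟨p, hp, hpu⟩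
    · subst h2
      exact ⟨rfl, parent_unique hG h1 h⟩
    · exact absurd (parent_unique hG h1 hpu ▸ hp) hy

lemma finite_neighbors (hch : ∀ x, {y | IsChild G o x y}.Finite) (x : V) :
    (G.neighborSet x).Finite := by
  refine ((hch x).union (Set.Subsingleton.finite (s := {y | IsChild G o y x})
    fun p hp p' hp' => parent_unique hG hp hp')).subset fun y hy => adj_cases hG hy

end tree

section sol
variable (nb : V → Finset V) (t : V → V → ℂ) (w : V → ℝ)

/-- The formal difference operator. -/
noncomputable def tau (f : V → ℂ) (u : V) : ℂ := ∑ y ∈ nb u, t u y * f y + w u * f u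

variable {nb t w}

lemma tau_add (f g : V → ℂ) (u : V) : tau nb t w (f + g) u = tau nb t w f u + tau nb t w g u := by
  simp only [tau, Pi.add_apply, mul_add, Finset.sum_add_distrib]; ring

lemma tau_smul (c : ℂ) (f : V → ℂ) (u : V) : tau nb t w (c • f) u = c * tau nb t w f u := by
  simp only [tau, Pi.smul_apply, smul_eq_mul, mul_add, Finset.mul_sum]
  congr 1
  · exact Finset.sum_congr rfl fun y _ => by ring
  · ring

open Classical in
/-- Square-summable solutions supported in `S` of `(τ - z) f = c δ_x` on `S`. -/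
def Sol (nb : V → Finset V) (t : V → V → ℂ) (w ν : V → ℝ) (S : Set V) (x : V) (z c : ℂ)
    (f : V → ℂ) : Prop :=
  Sq ν f ∧ (∀ y ∉ S, f y = 0) ∧ ∀ u ∈ S, tau nb t w f u - z * f u = if u = x then c else 0

variable {ν : V → ℝ} (hν : ∀ x, 0 < ν x)
  (hreal : ∀ f, Sq ν f → ∃ r : ℝ, HasSum (fun u => (ν u : ℂ) * (conj (f u) * tau nb t w f u)) r)
include hν hreal

lemma Sol.energy {S : Set V} {x : V} {z c : ℂ} {f : V → ℂ} (h : Sol nb t w ν S x z c f) :
    z.im * ∑' u, ν u * ‖f u‖ ^ 2 = -(ν x * (conj (f x) * c).im) := by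
  obtain ⟨r, hr⟩ := hreal f h.1
  have h1 := (Complex.hasSum_ofReal.2 h.1.hasSum).mul_left z
  have h2 := hr.sub h1
  have h3 : HasSum (fun u => (ν u : ℂ) * (conj (f u) * tau nb t w f u)
      - z * ((ν u * ‖f u‖ ^ 2 : ℝ) : ℂ)) ((ν x : ℂ) * (conj (f x) * c)) := by
    have key : ∀ u, (ν u : ℂ) * (conj (f u) * tau nb t w f u) - z * ((ν u * ‖f u‖ ^ 2 : ℝ) : ℂ)
        = (ν u : ℂ) * (conj (f u) * (tau nb t w f u - z * f u)) := by
      intro u
      push_cast
      rw [← Complex.conj_mul']
      ring
    simp_rw [key]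
    convert hasSum_single x fun u hu => ?_ using 1
    · by_cases hx : x ∈ S
      · rw [h.2.2 x hx, if_pos rfl]
      · simp [h.2.1 x hx]
    · by_cases hx : u ∈ S
      · rw [h.2.2 u hx, if_neg hu]; simp
      · simp [h.2.1 u hx]
  have h4 := congrArg Complex.im (h2.unique h3)
  simp only [Complex.sub_im, Complex.ofReal_im, Complex.mul_im (z), Complex.ofReal_re, mul_zero,
    zero_add, zero_sub, Complex.im_ofReal_mul] at h4
  linarith

lemma Sol.eq_zero {S : Set V} {x : V} {z : ℂ} (hz : 0 < z.im) {f : V → ℂ}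
    (h : Sol nb t w ν S x z 0 f) : f = 0 := by
  have h1 := h.energy hν hreal
  simp only [mul_zero, Complex.zero_im, neg_zero, mul_eq_zero, hz.ne', false_or] at h1
  funext u
  have h2 : ν u * ‖f u‖ ^ 2 ≤ ∑' u, ν u * ‖f u‖ ^ 2 :=
    h.1.le_tsum u fun v _ => mul_nonneg (hν v).le (sq_nonneg _)
  rw [h1] at h2
  have h3 : ‖f u‖ ^ 2 ≤ 0 := by
    by_contra hc
    have := mul_pos (hν u) (not_le.1 hc)
    linarith
  simpa using h3

omit hreal in
lemma Sol.smul {S : Set V} {x : V} {z c : ℂ} {f : V → ℂ} (h : Sol nb t w ν S x z c f) (d : ℂ) :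
    Sol nb t w ν S x z (d * c) (d • f) := by
  refine ⟨h.1.smul hν d, fun y hy => by simp [h.2.1 y hy], fun u hu => ?_⟩
  have := h.2.2 u hu
  rw [tau_smul, Pi.smul_apply, smul_eq_mul]
  split_ifs at this ⊢ <;> linear_combination d * this

lemma Sol.unique {S : Set V} {x : V} {z c : ℂ} (hz : 0 < z.im) {f g : V → ℂ}
    (hf : Sol nb t w ν S x z 1 f) (hg : Sol nb t w ν S x z c g) : g = c • f := by
  have h1 := hf.smul hν (-c)
  have h2 : Sol nb t w ν S x z 0 (g + (-c) • f) := by
    refine ⟨hg.1.add hν h1.1, fun y hy => by simp [hg.2.1 y hy, hf.2.1 y hy], fun u hu => ?_⟩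
    have a1 := hg.2.2 u hu
    have a2 := h1.2.2 u hu
    rw [tau_add, Pi.add_apply]
    split_ifs at a1 a2 ⊢ <;> linear_combination a1 + a2
  have := h2.eq_zero hν hreal hz
  rw [neg_smul, add_neg_eq_zero] at this
  exact this

lemma Sol.im_bound {S : Set V} {x : V} {z : ℂ} (hz : 0 < z.im) {f : V → ℂ} (hx : x ∈ S)
    (h : Sol nb t w ν S x z 1 f) : 0 < (f x).im ∧ z.im * ‖f x‖ ^ 2 ≤ (f x).im := by
  have h1 := h.energy hν hreal
  simp only [mul_one, Complex.conj_im, mul_neg, neg_neg] at h1
  have h2 : ∀ u, ν u * ‖f u‖ ^ 2 ≤ ∑' u, ν u * ‖f u‖ ^ 2 := fun u =>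
    h.1.le_tsum u fun v _ => mul_nonneg (hν v).le (sq_nonneg _)
  constructor
  · have hne : f ≠ 0 := by
      rintro rfl
      have := h.2.2 x hx
      simp [tau] at this
    obtain ⟨u, hu⟩ := Function.ne_iff.1 hne
    have h3 : 0 < ν u * ‖f u‖ ^ 2 := mul_pos (hν u) (pow_pos (norm_pos_iff.2 hu) 2)
    have h4 : 0 < ν x * (f x).im := h1 ▸ mul_pos hz (h3.trans_le (h2 u))
    exact (pos_iff_pos_of_mul_pos h4).1 (hν x)
  · have h3 := mul_le_mul_of_nonneg_left (h2 x) hz.le
    rw [h1] at h3
    have h4 : ν x * (z.im * ‖f x‖ ^ 2) ≤ ν x * (f x).im := by linarith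
    exact le_of_mul_le_mul_left h4 (hν x)

variable (hG : G.IsTree) (hnb : ∀ x y, y ∈ nb x ↔ G.Adj x y)
include hG hnb

omit hν hreal in
lemma tau_indicator_mem {x c u : V} (h : IsChild G o x c) (f : V → ℂ) (hu : u ∈ cone G o c) :
    open Classical in tau nb t w ((cone G o c).indicator f) u
      = tau nb t w f u - if u = c then t c x * f x else 0 := by
  classical
  simp only [tau, indicator_of_mem hu]
  have key : ∀ y ∈ nb u, t u y * (cone G o c).indicator f y
      = t u y * f y - if y = x then (if u = c then t c x * f x else 0) else 0 := by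
    intro y hy
    by_cases hyc : y ∈ cone G o c
    · rw [indicator_of_mem hyc, if_neg (fun h' : y = x => parent_not_mem h (h' ▸ hyc)), sub_zero]
    · obtain ⟨rfl, rfl⟩ := exit_cone hG h hu hyc ((hnb u y).1 hy)
      simp [indicator_of_notMem hyc]
  rw [Finset.sum_congr rfl key, Finset.sum_sub_distrib, Finset.sum_ite_eq']
  by_cases huc : u = c
  · subst huc
    rw [if_pos ((hnb u x).2 h.1.symm)]; ring
  · simp only [if_neg huc, ite_self]; ring

omit hν hreal in
lemma tau_of_notMem {x c u : V} (h : IsChild G o x c) {f : V → ℂ}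
    (hf : ∀ y ∉ cone G o c, f y = 0) (hu : u ∉ cone G o c) :
    open Classical in tau nb t w f u = if u = x then t x c * f c else 0 := by
  classical
  simp only [tau, hf u hu, mul_zero, add_zero]
  by_cases hux : u = x
  · subst hux
    rw [if_pos rfl]
    refine Finset.sum_eq_single_of_mem c ((hnb u c).2 h.1) fun y hy hyc => ?_
    by_cases hy' : y ∈ cone G o c
    · exact absurd (exit_cone hG h hy' hu ((hnb u y).1 hy).symm).1 hyc
    · rw [hf y hy', mul_zero]
  · rw [if_neg hux]
    refine Finset.sum_eq_zero fun y hy => ?_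
    by_cases hy' : y ∈ cone G o c
    · exact absurd (exit_cone hG h hy' hu ((hnb u y).1 hy).symm).2 hux
    · rw [hf y hy', mul_zero]

omit hreal in
/-- Restriction of a solution to the cone of a child of the source. -/
lemma Sol.restrict {S : Set V} {x c : V} (h : IsChild G o x c) (hS : cone G o c ⊆ S) {z : ℂ}
    {f : V → ℂ} (hf : Sol nb t w ν S x z 1 f) :
    Sol nb t w ν (cone G o c) c z (-(t c x * f x)) ((cone G o c).indicator f) := by
  refine ⟨hf.1.indicator hν _, fun y hy => indicator_of_notMem hy _, fun u hu => ?_⟩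
  have h1 := hf.2.2 u (hS hu)
  rw [if_neg (fun h' : u = x => parent_not_mem h (h' ▸ hu))] at h1
  rw [tau_indicator_mem hG hnb h f hu, indicator_of_mem hu]
  split_ifs <;> linear_combination h1

end sol

end Pool.Agent.Lib.MP_ae9099_mp
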